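import Pool.Agent.H511.Ex.Fld
import Pool.Agent.H511.Ex.Core

/-!
# The action of a Galois group on the roots of `X ^ m - X - 1`
-/

set_option autoImplicit false
set_option linter.unusedSectionVars false

namespace Pool.Agent.H511.Sx

open NumberField Polynomial Pool.Agent.H5.WH Module Pool.Agent.H511.Ex

section
variable {R S : Type*} [CommRing R] [CommRing S] [Algebra R S] [IsDomain S]
  {G : Type*} [Group G] [MulSemiringAction G S] [SMulCommClass G R S] {f : R[X]}

set_option backward.isDefEq.respectTransparency false in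
/-- an element which fixes the roots modulo a prime with at most one collision -/
theorem swap_of_cong [DecidableEq (f.rootSet S)] (hf : (f.map (algebraMap R S)).Splits)
    (p : Ideal S) [p.IsPrime] (hp : (f.rootSet S).ncard ≤ (f.rootSet (S ⧸ p)).ncard + 1)
    (g : G) (hg : ∀ x ∈ f.rootSet S, g • x - x ∈ p) :
    MulAction.toPermHom G (f.rootSet S) g = 1 ∨ (MulAction.toPermHom G (f.rootSet S) g).IsSwap := by
  classical
  by_cases hfp : f.map (algebraMap R (S ⧸ p)) = 0
  · rw [rootSet_def f (S ⧸ p), aroots_def, hfp, roots_zero, Multiset.toFinset_zero,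
      Finset.coe_empty, Set.ncard_empty, zero_add, Set.ncard_le_one_iff_subsingleton,
      ← Set.subsingleton_coe] at hp
    exact Or.inl (Subsingleton.elim _ _)
  let π : S →ₐ[R] S ⧸ p := Ideal.Quotient.mkₐ R p
  rw [← hf.image_rootSet_of_map_ne_zero π hfp, Set.ncard_le_ncard_image_add_one_iff] at hp
  have hπ (x : f.rootSet S) : π (g • (x : S)) = π x :=
    (Ideal.Quotient.mk_eq_mk_iff_sub_mem (g • (x : S)) x).mpr (hg x x.2)
  rw [or_iff_not_imp_left, Equiv.ext_iff, not_forall]
  rintro ⟨x, hx : g • x ≠ x⟩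
  refine ⟨g • x, x, hx, ?_⟩
  ext z
  simp only [Equiv.swap_apply_def, MulAction.toPermHom_apply, MulAction.toPerm_apply]
  have hxx : π (g • (g • (x : S))) = π (g • (x : S)) := by
    have := hπ (g • x)
    rwa [rootSet.coe_smul] at this
  split_ifs with hz hz'
  · subst hz
    have key := hp (g • g • x) (g • g • x).2 (g • x) (g • x).2 (g • x) (g • x).2 x x.2
      (by simpa [rootSet.coe_smul] using hxx) (by simpa [rootSet.coe_smul] using hπ x)
      (by simpa [← rootSet.coe_smul]) (by simpa [← rootSet.coe_smul])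
    grind [rootSet.coe_smul]
  · simp [hz']
  · have key := fun h => hp (g • z) (g • z).2 z z.2 (g • x) (g • x).2 x x.2
      (by simpa [rootSet.coe_smul] using hπ z) (by simpa [rootSet.coe_smul] using hπ x) h
      (by simpa [← rootSet.coe_smul])
    grind [rootSet.coe_smul, SetLike.coe_eq_coe]

end

lemma root_iff {L : Type} [Field L] (m : ℕ) (x : L) : aeval x (sel m) = 0 ↔ x ^ m = x + 1 := by
  have h : aeval x (sel m) = x ^ m - x - 1 := by simp [sel]
  rw [h]
  constructor
  · intro h1; linear_combination h1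
  · intro h1; linear_combination h1

/-- **The Galois group of a normal extension in which `X ^ m - X - 1` splits acts on the roots by at
least the alternating group.** -/
theorem act (k : Type) [Field k] [NumberField k] (m : ℕ) (hm : 5 ≤ m)
    (hmk : finrank ℚ k < m) (L : Type) [Field L] [NumberField L] [Algebra k L] [IsGalois k L]
    (hs : ((sel m).map (algebraMap ℤ L)).Splits) :
    ∃ (Φ : (L ≃ₐ[k] L) →* Equiv.Perm (Fin m)) (r : Fin m → 𝓞 L), Function.Injective r ∧
      (∀ x : L, x ^ m = x + 1 ↔ ∃ i, x = r i) ∧ (∀ g i, g (r i : L) = (r (Φ g i) : 𝓞 L)) ∧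
      alternatingGroup (Fin m) ≤ Φ.range ∧
      (∀ (P : Ideal (𝓞 L)) (_ : P.IsPrime) (g : L ≃ₐ[k] L), (∀ i, g • r i - r i ∈ P) →
        Φ g = 1 ∨ (Φ g).IsSwap) ∧
      ∀ (φ : L →+* ℂ) (g : L ≃ₐ[k] L), ComplexEmbedding.IsConj φ g → ∃ i, Φ g i = i := by
  classical
  have hm2 : 2 ≤ m := by omega
  have hs' := splits_int hm2 hs
  have hcard := ncard_roots hm2 hs
  have hfin : ((sel m).rootSet (𝓞 L)).Finite := rootSet_finite _ _
  have hft : Fintype ((sel m).rootSet (𝓞 L)) := hfin.fintype
  have hc : Fintype.card ((sel m).rootSet (𝓞 L)) = m := by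
    rw [← Nat.card_eq_fintype_card, Nat.card_coe_set_eq, hcard]
  let ε : (sel m).rootSet (𝓞 L) ≃ Fin m := Fintype.equivFinOfCardEq hc
  have hne : (sel m) ≠ 0 := (sel_monic hm2).ne_zero
  let Φ0 : (L ≃ₐ[k] L) →* Equiv.Perm ((sel m).rootSet (𝓞 L)) := MulAction.toPermHom _ _
  let Φ : (L ≃ₐ[k] L) →* Equiv.Perm (Fin m) := ε.permCongrHom.toMonoidHom.comp Φ0
  let r : Fin m → 𝓞 L := fun i => (ε.symm i : 𝓞 L)
  have hΦ : ∀ (g : L ≃ₐ[k] L) (i : Fin m), Φ g i = ε (Φ0 g (ε.symm i)) := fun g i => rfl
  have hΦ0 : ∀ (g : L ≃ₐ[k] L) (x : (sel m).rootSet (𝓞 L)),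
      ((Φ0 g x : (sel m).rootSet (𝓞 L)) : 𝓞 L) = g • (x : 𝓞 L) := fun g x => rfl
  have hinjr : Function.Injective r := fun i j h => ε.symm.injective (Subtype.ext h)
  have hroot : ∀ x : L, x ^ m = x + 1 ↔ ∃ i, x = r i := by
    intro x
    constructor
    · intro hx
      have hx0 : aeval x (sel m) = 0 := (root_iff m x).2 hx
      have hint : IsIntegral ℤ x := ⟨sel m, sel_monic hm2, hx0⟩
      obtain ⟨x', hx'⟩ : ∃ x' : 𝓞 L, (x' : L) = x := ⟨⟨x, hint⟩, rfl⟩
      have hx1 : aeval x' (sel m) = 0 := by
        apply FaithfulSMul.algebraMap_injective (𝓞 L) L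
        have := aeval_algebraMap_apply L x' (sel m)
        rw [← this, map_zero]
        rw [show algebraMap (𝓞 L) L x' = x from hx', hx0]
      have hx2 : x' ∈ (sel m).rootSet (𝓞 L) := by
        rw [mem_rootSet_of_ne hne]; exact hx1
      refine ⟨ε ⟨x', hx2⟩, ?_⟩
      have h3 : r (ε ⟨x', hx2⟩) = x' := by
        change ((ε.symm (ε ⟨x', hx2⟩) : (sel m).rootSet (𝓞 L)) : 𝓞 L) = x'
        rw [Equiv.symm_apply_apply]
      rw [h3, hx']
    · rintro ⟨i, rfl⟩
      have h1 : (r i) ∈ (sel m).rootSet (𝓞 L) := (ε.symm i).2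
      rw [mem_rootSet_of_ne hne] at h1
      rw [← root_iff]
      have := aeval_algebraMap_apply L (r i) (sel m)
      rw [h1, map_zero] at this
      exact this
  have hgr : ∀ (g : L ≃ₐ[k] L) i, g (r i : L) = (r (Φ g i) : 𝓞 L) := by
    intro g i
    have h1 : r (Φ g i) = g • r i := by
      change ((ε.symm (ε (Φ0 g (ε.symm i))) : (sel m).rootSet (𝓞 L)) : 𝓞 L) = _
      rw [Equiv.symm_apply_apply, hΦ0]
    rw [h1]
    rfl
  refine ⟨Φ, r, hinjr, hroot, hgr, ?_, ?_, ?_⟩
  · apply alt_le_of_index hm
    -- the kernel of `Φ` is the group of `L` over the field of the roots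
    let f : k[X] := (sel m).map (algebraMap ℤ k)
    have hfL : (f.map (algebraMap k L)).Splits := by
      change (((sel m).map (algebraMap ℤ k)).map (algebraMap k L)).Splits
      rw [Polynomial.map_map, ← IsScalarTower.algebraMap_eq]
      exact hs
    let L₀ : IntermediateField k L := IntermediateField.adjoin k (f.rootSet L)
    have hspl : f.IsSplittingField k L₀ := IntermediateField.adjoin_rootSet_isSplittingField hfL
    have hker : Φ.ker ≤ L₀.fixingSubgroup := by
      intro g hg
      rw [MonoidHom.mem_ker] at hg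
      rw [IntermediateField.mem_fixingSubgroup_iff]
      have h4 : L₀ ≤ IntermediateField.fixedField (Subgroup.zpowers g) := by
        rw [IntermediateField.adjoin_le_iff]
        intro x hx
        have hx' : x ∈ (sel m).rootSet L := by rwa [← rootSet_map (k := k)]
        rw [mem_rootSet_of_ne hne, root_iff] at hx'
        obtain ⟨i, rfl⟩ := (hroot _).1 hx'
        rw [SetLike.mem_coe, IntermediateField.mem_fixedField_iff]
        intro τ hτ
        have h5 : Subgroup.zpowers g ≤ MulAction.stabilizer (L ≃ₐ[k] L) ((r i : 𝓞 L) : L) := by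
          rw [Subgroup.zpowers_le]
          change g ((r i : 𝓞 L) : L) = _
          rw [hgr, hg]
          rfl
        exact h5 hτ
      intro x hx
      have h6 := h4 hx
      rw [IntermediateField.mem_fixedField_iff] at h6
      exact h6 g (Subgroup.mem_zpowers g)
    have h1 : Φ.ker.index = Nat.card Φ.range := Subgroup.index_ker Φ
    have h2 : finrank k L₀ ≤ Φ.ker.index := by
      have h3 : Nat.card L₀.fixingSubgroup = finrank L₀ L := IsGalois.card_fixingSubgroup_eq_finrank L₀
      have h4 : Nat.card Φ.ker * Φ.ker.index = Nat.card (L ≃ₐ[k] L) := Subgroup.card_mul_index _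
      have h5 : Nat.card Φ.ker ≤ Nat.card L₀.fixingSubgroup :=
        Nat.card_le_card_of_injective (Subgroup.inclusion hker) (Subgroup.inclusion_injective hker)
      rw [IsGalois.card_aut_eq_finrank, ← finrank_mul_finrank k L₀ L, ] at h4
      rw [h3] at h5
      have h6 : 0 < finrank L₀ L := finrank_pos
      have h7 : finrank k L₀ * finrank L₀ L ≤ Φ.ker.index * finrank L₀ L := by
        rw [← h4, mul_comm]
        exact Nat.mul_le_mul_left _ h5
      exact Nat.le_of_mul_le_mul_right h7 h6
    have h3 : m.factorial ≤ finrank ℚ k * finrank k L₀ := by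
      have hLf : NumberField L₀ := NumberField.of_module_finite k L₀
      have h4 : finrank ℚ k * finrank k L₀ = finrank ℚ L₀ := finrank_mul_finrank ℚ k L₀
      rw [h4, ← finrank_sel hm2]
      have hsp : (((sel m).map (algebraMap ℤ ℚ)).map (algebraMap ℚ L₀)).Splits := by
        have h5 := splits_of (k := k) (L := L₀) (sel m)
        rw [Polynomial.map_map, ← IsScalarTower.algebraMap_eq]
        exact h5
      let i := SplittingField.lift ((sel m).map (algebraMap ℤ ℚ)) hsp
      exact LinearMap.finrank_le_finrank_of_injective (f := i.toLinearMap) i.injective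
    have h4 : Nat.card Φ.range * Φ.range.index = m.factorial := by
      rw [Subgroup.card_mul_index, Nat.card_perm, Nat.card_fin]
    have h5 : 0 < Nat.card Φ.range := Nat.card_pos
    rw [h1] at h2
    have h6 : Φ.range.index * Nat.card Φ.range ≤ finrank ℚ k * Nat.card Φ.range := by
      rw [mul_comm Φ.range.index, h4]
      exact h3.trans (Nat.mul_le_mul_left _ h2)
    exact (Nat.le_of_mul_le_mul_right h6 h5).trans_lt hmk
  · intro P hP g hg
    have h1 := swap_of_cong hs' P (by
        rw [hcard]
        refine ncard_ge hm2 ?_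
        have : (sel m).map (algebraMap ℤ (𝓞 L ⧸ P))
            = ((sel m).map (algebraMap ℤ (𝓞 L))).map (algebraMap (𝓞 L) (𝓞 L ⧸ P)) := by
          rw [Polynomial.map_map, ← IsScalarTower.algebraMap_eq]
        rw [this]
        exact hs'.map _) g (fun x hx => by
          have h2 := hg (ε ⟨x, hx⟩)
          have h3 : r (ε ⟨x, hx⟩) = x := by
            change ((ε.symm (ε ⟨x, hx⟩) : (sel m).rootSet (𝓞 L)) : 𝓞 L) = x
            rw [Equiv.symm_apply_apply]
          rwa [h3] at h2)
    rcases h1 with h1 | ⟨a, b, hab, h1⟩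
    · left
      change ε.permCongrHom (Φ0 g) = 1
      rw [show Φ0 g = 1 from h1, map_one]
    · right
      refine ⟨ε a, ε b, fun h => hab (ε.injective h), ?_⟩
      change ε.permCongr (Φ0 g) = _
      rw [show Φ0 g = Equiv.swap a b from h1]
      exact Equiv.symm_trans_swap_trans a b ε
  · intro φ g hg
    obtain ⟨t, ht⟩ := exists_real_root hm2
    obtain ⟨x, hx, hxr⟩ := exists_preimage hm2 hs φ ht
    obtain ⟨i, hi⟩ := (hroot x).1 ((root_iff m x).1 hx)
    have hgx : g x = x := by
      apply φ.injective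
      rw [hg.eq x, hxr]
      exact Complex.conj_ofReal t
    refine ⟨i, hinjr ?_⟩
    apply RingOfIntegers.ext
    rw [← hgr, ← hi, hgx]

end Pool.Agent.H511.Sx
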