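import Pool.Agent.H511.Sx.Act

/-!
# The splitting field of `(X ^ n - 1) (X ^ m - X - 1)`
-/

set_option autoImplicit false
set_option linter.unusedSectionVars false

namespace Pool.Agent.H511.Sx

open NumberField Polynomial Pool.Agent.H5.WH Module Pool.Agent.H511.Ex

/-- automorphisms commute on roots of unity -/
theorem comm_roots {L : Type} [Field L] {k : Type} [Field k] [Algebra k L] (n : ℕ) (hn : 0 < n)
    (σ τ : L ≃ₐ[k] L) (ζ : L) (h : ζ ^ n = 1) : σ (τ ζ) = τ (σ ζ) := by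
  have hne : NeZero n := ⟨hn.ne'⟩
  let z : rootsOfUnity n L := rootsOfUnity.mkOfPowEq ζ h
  have hz : ((z : Lˣ) : L) = ζ := rfl
  obtain ⟨g, hg⟩ := IsCyclic.exists_generator (α := rootsOfUnity n L)
  obtain ⟨i, hi⟩ := hg z
  obtain ⟨a, ha⟩ := map_rootsOfUnity_eq_pow_self (σ : L →+* L) g
  obtain ⟨b, hb⟩ := map_rootsOfUnity_eq_pow_self (τ : L →+* L) g
  have h1 : ζ = ((g : Lˣ) : L) ^ i := by
    rw [← hz, ← hi]
    simp
  have ha' : σ ((g : Lˣ) : L) = ((g : Lˣ) : L) ^ a := ha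
  have hb' : τ ((g : Lˣ) : L) = ((g : Lˣ) : L) ^ b := hb
  rw [h1, map_zpow₀, map_zpow₀, map_zpow₀, map_zpow₀, hb', ha', map_pow, map_pow, ha', hb',
    ← pow_mul, ← pow_mul, mul_comm a b]

section
variable {k L : Type} [Field k] [Field L] [Algebra k L]

/-- the automorphisms that fix the `n`-th roots of unity -/
def fixMu (k L : Type) [Field k] [Field L] [Algebra k L] (n : ℕ) : Subgroup (L ≃ₐ[k] L) where
  carrier := {g | ∀ ζ : L, ζ ^ n = 1 → g ζ = ζ}
  mul_mem' := by
    intro a b ha hb ζ hζ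
    rw [AlgEquiv.mul_apply, hb ζ hζ, ha ζ hζ]
  one_mem' := fun ζ _ => rfl
  inv_mem' := by
    intro a ha ζ hζ
    have h1 := ha ζ hζ
    have h2 : a⁻¹ (a ζ) = ζ := by
      rw [← AlgEquiv.mul_apply, inv_mul_cancel, AlgEquiv.one_apply]
    rwa [h1] at h2

theorem mem_fixMu {n : ℕ} {g : L ≃ₐ[k] L} : g ∈ fixMu k L n ↔ ∀ ζ : L, ζ ^ n = 1 → g ζ = ζ := Iff.rfl

theorem commutator_le_fixMu (n : ℕ) (hn : 0 < n) :
    ⁅(⊤ : Subgroup (L ≃ₐ[k] L)), (⊤ : Subgroup (L ≃ₐ[k] L))⁆ ≤ fixMu k L n := by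
  rw [Subgroup.commutator_le]
  intro σ _ τ _ ζ hζ
  have h0 : (τ⁻¹ ζ) ^ n = 1 := by rw [← map_pow, hζ, map_one]
  have h1 : (σ⁻¹ (τ⁻¹ ζ)) ^ n = 1 := by rw [← map_pow, h0, map_one]
  rw [commutatorElement_def]
  change σ (τ (σ⁻¹ (τ⁻¹ ζ))) = ζ
  rw [comm_roots n hn σ τ _ h1]
  change (τ * (σ * (σ⁻¹ * τ⁻¹))) ζ = ζ
  rw [mul_inv_cancel_left, mul_inv_cancel, AlgEquiv.one_apply]

/-- the elements that fix the roots of unity still act by at least the alternating group -/
theorem alt_le_map {m : ℕ} (hm : 5 ≤ m) (n : ℕ) (hn : 0 < n)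
    (Φ : (L ≃ₐ[k] L) →* Equiv.Perm (Fin m)) (h : alternatingGroup (Fin m) ≤ Φ.range) :
    alternatingGroup (Fin m) ≤ (fixMu k L n).map Φ := by
  have h1 := commutator_alternatingGroup_eq_self (α := Fin m) (by rw [Nat.card_fin]; exact hm)
  rw [← h1]
  refine (Subgroup.commutator_mono h h).trans ?_
  rw [MonoidHom.range_eq_map, ← Subgroup.map_commutator]
  exact Subgroup.map_mono (commutator_le_fixMu n hn)

end

/-- The field `L` is a splitting field of `(X ^ n - 1) (X ^ m - X - 1)` over `k`. -/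
def IsField (k L : Type) [Field k] [Field L] [Algebra k L] (n m : ℕ) : Prop :=
  IsSplittingField k L ((X ^ n - 1) * (X ^ m - X - 1) : k[X])

section
variable {k L : Type} [Field k] [NumberField k] [Field L] [NumberField L] [Algebra k L] {n m : ℕ}

theorem IsField.galois (h : IsField k L n m) : IsGalois k L := by
  have h1 : IsSplittingField k L ((X ^ n - 1) * (X ^ m - X - 1) : k[X]) := h
  have h2 : Normal k L := Normal.of_isSplittingField ((X ^ n - 1) * (X ^ m - X - 1) : k[X])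
  exact ⟨⟩

theorem sel_eq (k : Type) [Field k] (m : ℕ) :
    (X ^ m - X - 1 : k[X]) = (sel m).map (algebraMap ℤ k) := sel_map.symm

theorem fac_ne (hn : 0 < n) : (X ^ n - 1 : k[X]) ≠ 0 := by
  have h1 : (X ^ n - C (1 : k)) ≠ 0 := X_pow_sub_C_ne_zero hn 1
  rwa [C_1] at h1

theorem fac_ne' (hm : 2 ≤ m) : (X ^ m - X - 1 : k[X]) ≠ 0 := by
  rw [sel_eq]
  exact ((sel_monic hm).map _).ne_zero

theorem IsField.splits (h : IsField k L n m) (hn : 0 < n) (hm : 2 ≤ m) :
    ((sel m).map (algebraMap ℤ L)).Splits := by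
  have h1 := h.splits'
  rw [Polynomial.map_mul] at h1
  have h3 : ((X ^ m - X - 1 : k[X]).map (algebraMap k L)) = (sel m).map (algebraMap ℤ L) := by
    rw [sel_eq, Polynomial.map_map, ← IsScalarTower.algebraMap_eq]
  rw [h3] at h1
  exact ((splits_mul ((Polynomial.map_ne_zero_iff (algebraMap k L).injective).2 (fac_ne hn))
    ((sel_monic hm).map _).ne_zero).1 h1).2

theorem IsField.splits_one (h : IsField k L n m) (hn : 0 < n) (hm : 2 ≤ m) :
    ((X ^ n - 1 : L[X])).Splits := by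
  have h1 := h.splits'
  rw [Polynomial.map_mul] at h1
  have h2 := ((splits_mul ((Polynomial.map_ne_zero_iff (algebraMap k L).injective).2 (fac_ne hn))
    ((Polynomial.map_ne_zero_iff (algebraMap k L).injective).2 (fac_ne' hm))).1 h1).1
  simpa using h2

theorem IsField.eq_one (h : IsField k L n m) (hn : 0 < n) (hm : 2 ≤ m) {g : L ≃ₐ[k] L}
    (hg : g ∈ fixMu k L n) (hg' : ∀ x : L, x ^ m = x + 1 → g x = x) : g = 1 := by
  have h1 : IsSplittingField k L ((X ^ n - 1) * (X ^ m - X - 1) : k[X]) := h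
  have hgen := adjoin_top (k := k) (L := L) ((X ^ n - 1) * (X ^ m - X - 1) : k[X])
  have h4 : IntermediateField.adjoin k (((X ^ n - 1) * (X ^ m - X - 1) : k[X]).rootSet L) ≤
      IntermediateField.fixedField (Subgroup.zpowers g) := by
    rw [IntermediateField.adjoin_le_iff]
    intro x hx
    have hgx : g x = x := by
      rw [mem_rootSet_of_ne (mul_ne_zero (fac_ne hn) (fac_ne' hm))] at hx
      simp only [map_mul, map_sub, map_pow, aeval_X, map_one, mul_eq_zero] at hx
      rcases hx with hx | hx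
      · exact hg x (sub_eq_zero.1 hx)
      · exact hg' x (by linear_combination hx)
    rw [SetLike.mem_coe, IntermediateField.mem_fixedField_iff]
    intro τ hτ
    have h5 : Subgroup.zpowers g ≤ MulAction.stabilizer (L ≃ₐ[k] L) x := by
      rw [Subgroup.zpowers_le]
      exact hgx
    exact h5 hτ
  rw [hgen, top_le_iff] at h4
  apply AlgEquiv.ext
  intro x
  have h6 : x ∈ IntermediateField.fixedField (Subgroup.zpowers g) := by
    rw [h4]; trivial
  rw [IntermediateField.mem_fixedField_iff] at h6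
  exact h6 g (Subgroup.mem_zpowers g)

end

end Pool.Agent.H511.Sx
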