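import Pool.Graph.R_pool_sql_team_seeded_1acbe0a2.Y786.FR.Free

/-!
# Free actions of a finite group on the same finite set are conjugate
-/

set_option autoImplicit false

namespace Pool.Agent.H511.Sx

open Equiv Pool.Agent.Y786.FR

/-- a set with a free action is a union of copies of the group -/
theorem free_split {G : Type} [Group G] {M : ℕ} (e : G →* Perm (Fin M)) (he : FreeHom e) :
    ∃ (Q : Type) (f : G × Q ≃ Fin M), ∀ g h q, f (g * h, q) = e g (f (h, q)) := by
  classical
  let _ : MulAction G (Fin M) := MulAction.compHom (Fin M) e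
  have hsm : ∀ (g : G) (x : Fin M), g • x = e g x := fun _ _ => rfl
  let Q := Quotient (MulAction.orbitRel G (Fin M))
  let F : G × Q → Fin M := fun x => e x.1 (Quotient.out x.2)
  have hinj : Function.Injective F := by
    rintro ⟨g, q⟩ ⟨h, q'⟩ hx
    change e g (Quotient.out q) = e h (Quotient.out q') at hx
    have h1 : q = q' := by
      have h2 : (MulAction.orbitRel G (Fin M)) (Quotient.out q) (Quotient.out q') := by
        rw [MulAction.orbitRel_apply]
        refine ⟨g⁻¹ * h, ?_⟩
        change e (g⁻¹ * h) (Quotient.out q') = Quotient.out q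
        rw [map_mul, Perm.mul_apply, ← hx, ← Perm.mul_apply, ← map_mul, inv_mul_cancel, map_one,
          Perm.one_apply]
      have h3 := Quotient.sound h2
      rwa [Quotient.out_eq, Quotient.out_eq] at h3
    subst h1
    by_cases hgh : h⁻¹ * g = 1
    · rw [inv_mul_eq_one] at hgh
      rw [hgh]
    · exact absurd (by
        rw [map_mul, Perm.mul_apply, hx, ← Perm.mul_apply, ← map_mul, inv_mul_cancel, map_one,
          Perm.one_apply]) (he _ hgh (Quotient.out q))
  have hsurj : Function.Surjective F := by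
    intro x
    have h1 : (MulAction.orbitRel G (Fin M)) x
        (Quotient.out (Quotient.mk (MulAction.orbitRel G (Fin M)) x)) :=
      Quotient.exact (Quotient.out_eq _).symm
    rw [MulAction.orbitRel_apply] at h1
    obtain ⟨g, hg⟩ := h1
    exact ⟨(g, Quotient.mk (MulAction.orbitRel G (Fin M)) x), hg⟩
  refine ⟨Q, Equiv.ofBijective F ⟨hinj, hsurj⟩, fun g h q => ?_⟩
  change e (g * h) (Quotient.out q) = e g (e h (Quotient.out q))
  rw [map_mul, Perm.mul_apply]

/-- **Free actions on the same set are conjugate.** -/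
theorem free_conj {G : Type} [Group G] [Finite G] {M : ℕ} (e₁ e₂ : G →* Perm (Fin M))
    (h₁ : FreeHom e₁) (h₂ : FreeHom e₂) : ∃ τ : Perm (Fin M), ∀ g, τ * e₁ g * τ⁻¹ = e₂ g := by
  classical
  obtain ⟨Q₁, f₁, hf₁⟩ := free_split e₁ h₁
  obtain ⟨Q₂, f₂, hf₂⟩ := free_split e₂ h₂
  have hQ₁ : Finite Q₁ := by
    have : Finite (G × Q₁) := Finite.of_equiv _ f₁.symm
    exact Finite.prod_right G
  have hQ₂ : Finite Q₂ := by
    have : Finite (G × Q₂) := Finite.of_equiv _ f₂.symm
    exact Finite.prod_right G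
  have hcard : Nat.card Q₁ = Nat.card Q₂ := by
    have h1 : Nat.card G * Nat.card Q₁ = Nat.card G * Nat.card Q₂ := by
      rw [← Nat.card_prod, ← Nat.card_prod, Nat.card_congr f₁, Nat.card_congr f₂]
    exact Nat.eq_of_mul_eq_mul_left Nat.card_pos h1
  let c : Q₁ ≃ Q₂ := (Finite.card_eq.1 hcard).some
  let τ : Perm (Fin M) := f₁.symm.trans ((Equiv.prodCongr (Equiv.refl G) c).trans f₂)
  refine ⟨τ, fun g => ?_⟩
  rw [mul_inv_eq_iff_eq_mul]
  ext x
  obtain ⟨⟨h, q⟩, rfl⟩ := f₁.surjective x
  have h1 : τ (f₁ (h, q)) = f₂ (h, c q) := by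
    simp [τ]
  have h2 : τ (f₁ (g * h, q)) = f₂ (g * h, c q) := by
    simp [τ]
  rw [Perm.mul_apply, Perm.mul_apply, ← hf₁, h1, h2, hf₂]

end Pool.Agent.H511.Sx
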