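import Pool.Agent.H511.Cm.Hol

/-!
# L-functions without the Euler factors at finitely many primes

If the weight `ω` is zero at the primes which ramify in `M/K`, the relations between the twisted
L-functions over different fields are exact.
-/

set_option autoImplicit false
set_option linter.unusedSectionVars false

namespace Pool.Agent.H511.Sx

open NumberField IsDedekindDomain Filter Topology Pool.Agent.H921R2.TatePole Pool.Agent.W353.NF
  Pool.Agent.Q5.BR Pool.Agent.H541R3.ART Pool.Agent.Q92.AR Pool.Agent.H302R2 Pool.Agent.H511.Ex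
  Pool.Agent.H511.Cm Pool.Agent.W446.AS Pool.Agent.Y786.FR Equiv
open Pool.Agent.Q92.RT (induced induced_conj induced_pair class_expand)
open Pool.Agent.Q84.AR (psi psi_apply dv dv_span dv_prime cop_v)
open Pool.Agent.Y773 (LI)
open Pool.Agent.N172.HS (nrmc IsHecke)

section
variable {F : Type} [Field F] [NumberField F]

theorem LP_ext {P P' : Set (HeightOneSpectrum (𝓞 F))} {χ χ' : HeightOneSpectrum (𝓞 F) → ℂ}
    (h1 : ∀ v ∈ P, v ∈ P' → χ v = χ' v) (h2 : ∀ v ∈ P, v ∉ P' → χ v = 0)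
    (h3 : ∀ v ∈ P', v ∉ P → χ' v = 0) (s : ℂ) : LP P χ s = LP P' χ' s := by
  classical
  unfold LP
  congr 1
  refine tsum_congr fun x => ?_
  rw [lterm_eq, lterm_eq]
  by_cases hx : x.1 ∈ P
  · by_cases hx' : x.1 ∈ P'
    · rw [if_pos hx, if_pos hx', h1 _ hx hx']
    · rw [if_pos hx, if_neg hx', h2 _ hx hx', zero_mul, zero_pow (Nat.succ_ne_zero _), zero_div]
  · by_cases hx' : x.1 ∈ P'
    · rw [if_neg hx, if_pos hx', h3 _ hx' hx, zero_mul, zero_pow (Nat.succ_ne_zero _), zero_div]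
    · rw [if_neg hx, if_neg hx']

end

section
variable {K F F' M : Type} [Field K] [NumberField K] [Field F] [NumberField F] [Field F']
  [NumberField F'] [Field M] [NumberField M]
  [Algebra K F] [Algebra K M] [Algebra F M] [IsScalarTower K F M]
  [Algebra K F'] [Algebra F F'] [Algebra F' M] [IsScalarTower K F' M] [IsScalarTower F F' M]
  [IsScalarTower K F F']
  [IsGalois K M] [IsGalois F M] [IsGalois F' M]

theorem eq_lin {ω : HeightOneSpectrum (𝓞 K) → ℂ} (hω : ∀ v, ‖ω v‖ ≤ 1)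
    (hz : ∀ v, ¬ Unramified M v → ω v = 0) (hun : ∀ w : HeightOneSpectrum (𝓞 F), Unramified M w)
    (l : (M ≃ₐ[F'] M) →* ℂˣ) {s : ℂ} (hs : 1 < s.re) :
    twL M (upW K (F := F) ω) (induced (fixer F F' M) (chF F l)) s =
      twL M ω (induced (fixer K F' M) (chF K l)) s := by
  rw [twL_induced (norm_upW hω) (chF F l) l (fun y hy => chF_apply l y hy) hs,
    twL_induced hω (chF K l) l (fun y hy => chF_apply l y hy) hs]
  have e1 : (fun w : HeightOneSpectrum (𝓞 F') => ((l (frob M w) : ℂˣ) : ℂ) *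
      upW K (F := F) ω (w.under (𝓞 F)) ^ rdeg F w) =
      fun w => ((l (frob M w) : ℂˣ) : ℂ) * upW K ω w := by
    funext w
    rw [← upW_upW (F := F) ω w]
    rfl
  rw [e1]
  refine LP_ext (fun _ _ _ => rfl) (fun w _ hw => ?_) (fun w _ hw => absurd (hun _) hw) s
  have h1 : ω (w.under (𝓞 K)) = 0 := hz _ hw
  unfold upW
  rw [h1, zero_pow (rdeg_pos w).ne', mul_zero]

end

section
variable {K F M : Type} [Field K] [NumberField K] [Field F] [NumberField F] [Field M] [NumberField M]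
  [Algebra K F] [Algebra K M] [Algebra F M] [IsScalarTower K F M] [IsGalois K M] [IsGalois F M]

theorem eq_sub {ω : HeightOneSpectrum (𝓞 K) → ℂ} (hω : ∀ v, ‖ω v‖ ≤ 1)
    (hz : ∀ v, ¬ Unramified M v → ω v = 0) (hun : ∀ w : HeightOneSpectrum (𝓞 F), Unramified M w)
    (X : Subgroup (M ≃ₐ[F] M)) (ψ : X →* ℂˣ) :
    ∃ (X' : Subgroup (M ≃ₐ[K] M)) (ψ' : X' →* ℂˣ) (e : X ≃* X'),
      (∀ s : ℂ, 1 < s.re → twL M (upW K ω) (induced X ψ) s = twL M ω (induced X' ψ') s) ∧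
      (∀ x : X, ((e x : X') : M ≃ₐ[K] M) = (x : M ≃ₐ[F] M).restrictScalars K) ∧
      ∀ x : X, ψ' (e x) = ψ x := by
  have h := fixer_fixedField (K := F) (M := M) X
  let F' := IntermediateField.fixedField X
  have i1 : IsScalarTower K F' M := IsScalarTower.of_algebraMap_eq fun x => rfl
  have i2 : IsScalarTower F F' M := inferInstance
  have i3 : IsScalarTower K F F' := inferInstance
  have hgal : IsGalois F' M := inferInstance
  let e1 : X ≃* fixer F F' M := MulEquiv.subgroupCongr h.symm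
  let e2 : X ≃* (M ≃ₐ[F'] M) := e1.trans (eF F F' M).symm
  let l : (M ≃ₐ[F'] M) →* ℂˣ := ψ.comp e2.symm.toMonoidHom
  have h2 : induced (fixer F F' M) (chF F l) = induced X ψ := by
    refine induced_congr h fun x hx hx' => ?_
    change ψ (e2.symm ((eF F F' M).symm ⟨x, hx⟩)) = ψ ⟨x, hx'⟩
    congr 1
    change e1.symm ((eF F F' M) ((eF F F' M).symm ⟨x, hx⟩)) = _
    rw [MulEquiv.apply_symm_apply]
    rfl
  refine ⟨fixer K F' M, chF K l, e2.trans (eF K F' M), ?_, ?_, ?_⟩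
  · intro s hs
    rw [← h2]
    exact eq_lin (K := K) (F := F) (F' := F') (M := M) hω hz hun l hs
  · intro x
    have h3 : ((eF F F' M ((eF F F' M).symm (e1 x)) : fixer F F' M) : M ≃ₐ[F] M) = x := by
      rw [MulEquiv.apply_symm_apply]
      rfl
    rw [eF_coe] at h3
    change ((eF K F' M ((eF F F' M).symm (e1 x)) : fixer K F' M) : M ≃ₐ[K] M) = _
    rw [eF_coe, ← h3]
    rfl
  · intro x
    change ψ (e2.symm ((eF K F' M).symm (eF K F' M (e2 x)))) = _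
    rw [MulEquiv.symm_apply_apply, MulEquiv.symm_apply_apply]

theorem eq_irr {ω : HeightOneSpectrum (𝓞 K) → ℂ} (hω : ∀ v, ‖ω v‖ ≤ 1)
    (hz : ∀ v, ¬ Unramified M v → ω v = 0) (hun : ∀ w : HeightOneSpectrum (𝓞 F), Unramified M w)
    {χ : (M ≃ₐ[F] M) → ℂ} (hχ : χ ∈ Irr (M ≃ₐ[F] M)) (v : ((M ≃ₐ[K] M) → ℂ) → ℕ)
    (hv : ∀ ψ ∈ Irr (M ≃ₐ[K] M), ∑ᶠ g : M ≃ₐ[F] M, ψ (inc K F M g) * χ g⁻¹ =
      (v ψ : ℂ) * (Nat.card (M ≃ₐ[F] M) : ℂ)) {s : ℂ} (hs : 1 < s.re) :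
    twL M (upW K ω) χ s = ∏ ψ ∈ irrF (M ≃ₐ[K] M), twL M ω ψ s ^ v ψ := by
  classical
  have fG : Fintype (M ≃ₐ[F] M) := Fintype.ofFinite _
  have fΓ : Fintype (M ≃ₐ[K] M) := Fintype.ofFinite _
  obtain ⟨ι, _, H, ψ, n, h⟩ := brauer _ χ hχ
  choose H' ψ' e hc he hψ using fun i => eq_sub (K := K) hω hz hun (H i) (ψ i)
  have h1 : χ = fun g => ∑ i, (n i : ℂ) * induced (H i) (ψ i) g := funext h
  have h2 : twL M (upW K ω) χ s = ∏ i, twL M (upW K ω) (induced (H i) (ψ i)) s ^ n i := by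
    rw [h1, twL_sum_int (norm_upW hω) Finset.univ n (fun i => induced (H i) (ψ i)) hs]
  have h3 : ∏ i, twL M (upW K ω) (induced (H i) (ψ i)) s ^ n i =
      ∏ i, twL M ω (induced (H' i) (ψ' i)) s ^ n i :=
    Finset.prod_congr rfl fun i _ => by rw [hc i s hs]
  rw [h2, h3, ← twL_sum_int hω Finset.univ n (fun i => induced (H' i) (ψ' i)) hs,
    ← twL_sum hω (irrF (M ≃ₐ[K] M)) v (fun ψ => ψ) hs]
  congr 1
  funext g
  refine class_expand (m := fun ψ => (v ψ : ℂ)) (θ := fun g => ∑ i, (n i : ℂ) *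
    induced (H' i) (ψ' i) g) (fun g x => ?_) (fun φ hφ => ?_) g
  · exact Finset.sum_congr rfl fun i _ => by rw [induced_conj]
  -- the multiplicities
  have hcl : ∀ g x : M ≃ₐ[K] M, φ (x * g * x⁻¹) = φ g := fun g x => Irr.conj hφ g x
  have hcl' : ∀ g x : M ≃ₐ[F] M, φ (inc K F M (x * g * x⁻¹)) = φ (inc K F M g) := by
    intro g x
    rw [map_mul, map_mul, map_inv, hcl]
  let m : ι → ℂ := fun i => (∑ᶠ h : H i, φ (inc K F M h) * (((ψ i h)⁻¹ : ℂˣ) : ℂ)) /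
    (Nat.card (H i) : ℂ)
  have hm : ∀ i, ∑ᶠ h : H i, φ (inc K F M h) * (((ψ i h)⁻¹ : ℂˣ) : ℂ) =
      m i * (Nat.card (H i) : ℂ) := by
    intro i
    have hne : (Nat.card (H i) : ℂ) ≠ 0 := by exact_mod_cast Nat.card_pos.ne'
    exact (div_mul_cancel₀ _ hne).symm
  have hm' : ∀ i, ∑ᶠ h : H' i, φ h * (((ψ' i h)⁻¹ : ℂˣ) : ℂ) = m i * (Nat.card (H' i) : ℂ) := by
    intro i
    rw [← Nat.card_congr (e i).toEquiv, ← hm i]
    refine (finsum_eq_of_bijective (e i) (e i).bijective fun x => ?_).symm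
    rw [hψ i x, he i x]
    rfl
  have h4 : ∀ i, ∑ g : M ≃ₐ[K] M, induced (H' i) (ψ' i) g * φ g⁻¹ = m i * Nat.card (M ≃ₐ[K] M) :=
    fun i => induced_pair (H' i) (ψ' i) hcl (hm' i)
  have h5 : ∀ i, ∑ g : M ≃ₐ[F] M, induced (H i) (ψ i) g * φ (inc K F M g⁻¹) =
      m i * Nat.card (M ≃ₐ[F] M) :=
    fun i => induced_pair (χ := fun g => φ (inc K F M g)) (H i) (ψ i) hcl' (hm i)
  have h6 : (v φ : ℂ) * (Nat.card (M ≃ₐ[F] M) : ℂ) = (∑ i, (n i : ℂ) * m i) *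
      (Nat.card (M ≃ₐ[F] M) : ℂ) := by
    rw [← hv φ hφ, finsum_eq_sum_of_fintype]
    have h7 : ∑ g : M ≃ₐ[F] M, φ (inc K F M g) * χ g⁻¹ =
        ∑ g : M ≃ₐ[F] M, χ g * φ (inc K F M g⁻¹) := by
      refine Fintype.sum_equiv (Equiv.inv (M ≃ₐ[F] M)) _ _ fun g => ?_
      simp only [Equiv.inv_apply, inv_inv]
      rw [mul_comm]
    rw [h7, Finset.sum_mul]
    have h8 : ∀ g : M ≃ₐ[F] M, χ g * φ (inc K F M g⁻¹) =
        ∑ i, (n i : ℂ) * (induced (H i) (ψ i) g * φ (inc K F M g⁻¹)) := by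
      intro g
      rw [h g, Finset.sum_mul]
      exact Finset.sum_congr rfl fun i _ => by rw [mul_assoc]
    rw [Finset.sum_congr rfl fun g _ => h8 g, Finset.sum_comm]
    refine Finset.sum_congr rfl fun i _ => ?_
    rw [← Finset.mul_sum, h5 i, mul_assoc]
  have hG : (Nat.card (M ≃ₐ[F] M) : ℂ) ≠ 0 := by exact_mod_cast Nat.card_pos.ne'
  have h9 : (v φ : ℂ) = ∑ i, (n i : ℂ) * m i := mul_right_cancel₀ hG h6
  rw [h9, Finset.sum_mul]
  have h10 : ∀ g : M ≃ₐ[K] M, (∑ i, (n i : ℂ) * induced (H' i) (ψ' i) g) * φ g⁻¹ =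
      ∑ i, (n i : ℂ) * (induced (H' i) (ψ' i) g * φ g⁻¹) := by
    intro g
    rw [Finset.sum_mul]
    exact Finset.sum_congr rfl fun i _ => by rw [mul_assoc]
  rw [Finset.sum_congr rfl fun g _ => h10 g, Finset.sum_comm]
  refine Finset.sum_congr rfl fun i _ => ?_
  rw [← Finset.mul_sum, h4 i, mul_assoc]

end

section
variable {k F L : Type} [Field k] [NumberField k] [Field F] [NumberField F] [Field L] [NumberField L]
  [Algebra k F] [Algebra k L] [Algebra F L] [IsScalarTower k F L] [IsGalois k L] [IsGalois F L]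
variable {ω : HeightOneSpectrum (𝓞 k) → ℂ} {S : Set ℂ}

/-- the restriction of the property to the extensions of the base field -/
theorem linC_up (hω : ∀ v, ‖ω v‖ ≤ 1) (hz : ∀ v, ¬ Unramified L v → ω v = 0)
    (hun : ∀ w : HeightOneSpectrum (𝓞 F), Unramified L w) (hf : LinC L ω S) :
    LinC (K := F) L (upW k ω) S := by
  intro H ψ
  obtain ⟨X', ψ', e, h2, -, -⟩ := eq_sub (K := k) hω hz hun H ψ
  obtain ⟨g, hg, hg2, hg3⟩ := hf X' ψ'
  exact ⟨g, ⟨hg.1, fun s hs => by rw [hg.2 s hs, h2 s hs]⟩, hg2, hg3⟩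

/-- the orders of the L-functions of `L/F` -/
theorem lin_order (hω : ∀ v, ‖ω v‖ ≤ 1) (hz : ∀ v, ¬ Unramified L v → ω v = 0)
    (hun : ∀ w : HeightOneSpectrum (𝓞 F), Unramified L w) (hf : LinC L ω S)
    {χ : (L ≃ₐ[F] L) → ℂ} (hχ : χ ∈ Irr (L ≃ₐ[F] L)) (v : ((L ≃ₐ[k] L) → ℂ) → ℕ)
    (hv : ∀ ψ ∈ Irr (L ≃ₐ[k] L), ∑ᶠ g : L ≃ₐ[F] L, ψ (inc k F L g) * χ g⁻¹ =
      (v ψ : ℂ) * (Nat.card (L ≃ₐ[F] L) : ℂ)) {s₀ : ℂ} (h0 : s₀ ∈ S) :
    meromorphicOrderAt (cont (twL L (upW k ω) χ)) s₀ =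
      ((∑ ψ ∈ irrF (L ≃ₐ[k] L), (v ψ : ℤ) * (linData hω hf h0).ord ψ : ℤ) : WithTop ℤ) := by
  rw [(cont_spec (lin_continues (norm_upW hω) (linC_up hω hz hun hf) hχ)).order_eq
    (lin_prod hω hf v) (fun s hs => eq_irr hω hz hun hχ v hv hs) s₀]
  refine order_M (linData hω hf h0) v (Filter.Eventually.of_forall fun s => ?_)
  simp only
  rw [finprod_mem_eq_finite_toFinset_prod _ (irr_finite (G := L ≃ₐ[k] L))]
  rfl

end

/-- **Main theorem on the orders, in the whole plane.** -/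
theorem core (N : ℕ) : ∃ m₀ : ℕ, 0 < m₀ ∧ ∀ m : ℕ, 0 < m → m₀ ∣ m →
    ∀ (k F L : Type) [Field k] [NumberField k] [Field F] [NumberField F] [Field L] [NumberField L]
      [Algebra k F] [Algebra k L] [Algebra F L] [IsScalarTower k F L] [IsGalois k L] [IsGalois F L]
      (j : Perm (Fin m) →* (L ≃ₐ[k] L)) (ι : (L ≃ₐ[F] L) →* Perm (Fin m)), FreeHom ι →
      Nat.card (L ≃ₐ[F] L) ≤ N → (∀ g, j (ι g) = inc k F L g) →
      (∀ w : HeightOneSpectrum (𝓞 F), Unramified L w) →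
      ∀ (ω : HeightOneSpectrum (𝓞 k) → ℂ) (S : Set ℂ), (∀ v, ‖ω v‖ ≤ 1) →
        (∀ v, ¬ Unramified L v → ω v = 0) → LinC L ω S →
        ∀ s₀ ∈ S, ∀ χ ∈ Irr (L ≃ₐ[F] L), 0 ≤ meromorphicOrderAt (cont (twL L (upW k ω) χ)) s₀ := by
  classical
  obtain ⟨m₀, hm₀, hm⟩ := free_mult N 1 one_pos
  refine ⟨m₀, hm₀, ?_⟩
  intro m hmpos hdvd k F L _ _ _ _ _ _ _ _ _ _ _ _ j ι hι hN hj hun ω S hω hz hf s₀ h0
  have fG : Fintype (L ≃ₐ[F] L) := Fintype.ofFinite _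
  have fΓ : Fintype (L ≃ₐ[k] L) := Fintype.ofFinite _
  have hG' : Fintype.card (L ≃ₐ[F] L) ≤ N := by rwa [← Nat.card_eq_fintype_card]
  choose! v hv using fun (χ : (L ≃ₐ[F] L) → ℂ) (hχ : χ ∈ Irr (L ≃ₐ[F] L)) (ψ : (L ≃ₐ[k] L) → ℂ)
    (hψ : ψ ∈ Irr (L ≃ₐ[k] L)) => exists_mult_hom hψ (inc k F L) hχ
  have hpair : ∀ n : ((L ≃ₐ[k] L) → ℂ) → ℤ, ∀ χ ∈ Irr (L ≃ₐ[F] L),
      ∑ g : L ≃ₐ[F] L, theta n (j (ι g)) * χ g⁻¹ =
        ((∑ ψ ∈ irrF (L ≃ₐ[k] L), (v χ ψ : ℤ) * n ψ : ℤ) : ℂ) * Fintype.card (L ≃ₐ[F] L) := by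
    intro n χ hχ
    have h1 := theta_pair_hom n (inc k F L) χ (v χ) (hv χ hχ)
    rw [Nat.card_eq_fintype_card] at h1
    rw [← h1]
    exact Finset.sum_congr rfl fun g _ => by rw [hj]
  obtain ⟨h2, -⟩ := hm m hmpos hdvd (fun σ => theta (linData hω hf h0).ord (j σ))
    ((linData hω hf h0).isHeilbronn.comp j) (L ≃ₐ[F] L) hG' ι hι
    (fun χ => ∑ ψ ∈ irrF (L ≃ₐ[k] L), (v χ ψ : ℤ) * (linData hω hf h0).ord ψ)
    (hpair (linData hω hf h0).ord)
  intro χ hχ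
  rw [lin_order hω hz hun hf hχ (v χ) (hv χ hχ) h0]
  exact_mod_cast h2 χ hχ

/-! ### Hecke characters which vanish at the ramified primes -/

section
variable {K M : Type} [Field K] [NumberField K] [Field M] [NumberField M] [Algebra K M]
  [IsGalois K M]

/-- The number `N` is divisible by the ramified primes of `M/K` and by the moduli of the linear
characters of the subgroups. -/
def Enough (K M : Type) [Field K] [NumberField K] [Field M] [NumberField M] [Algebra K M]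
    [IsGalois K M] (N : ℕ) : Prop :=
  Ram K M N ∧ ∀ (H : Subgroup (M ≃ₐ[K] M)) (lam0 : H →* ℂˣ), ∃ N' : ℕ, N' ≠ 0 ∧ N' ∣ N ∧
    ∀ x ∈ Ray (IntermediateField.fixedField H) N',
      art ((lam0.comp (Subgroup.inclusion (le_of_eq (fixer_fixedField (K := K) (M := M) H)))).comp
        (resF K (IntermediateField.fixedField H) M)) (prin x) = 0

theorem exists_enough (K M : Type) [Field K] [NumberField K] [Field M] [NumberField M] [Algebra K M]
    [IsGalois K M] : ∃ N : ℕ, N ≠ 0 ∧ Enough K M N := by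
  classical
  have fh : ∀ H : Subgroup (M ≃ₐ[K] M), Finite (H →* ℂˣ) := fun H => finite_hom H
  obtain ⟨N₁, hN₁, hR, -⟩ := recip K M 1
  choose N hN hRN hray using fun (H : Subgroup (M ≃ₐ[K] M)) (lam0 : H →* ℂˣ) =>
    recip (IntermediateField.fixedField H) M
      ((lam0.comp (Subgroup.inclusion (le_of_eq (fixer_fixedField (K := K) (M := M) H)))).comp
        (resF K (IntermediateField.fixedField H) M))
  let ι : Type := Σ H : Subgroup (M ≃ₐ[K] M), (H →* ℂˣ)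
  have fι : Fintype ι := Fintype.ofFinite ι
  refine ⟨N₁ * ∏ i : ι, N i.1 i.2, mul_ne_zero hN₁ (Finset.prod_ne_zero_iff.2 fun i _ => hN _ _),
    ?_, ?_⟩
  · intro v hv
    rw [Nat.cast_mul]
    exact Ideal.mul_mem_right _ _ (hR v hv)
  · intro H lam0
    refine ⟨N H lam0, hN _ _, ?_, hray H lam0⟩
    exact (Finset.dvd_prod_of_mem (fun i : ι => N i.1 i.2)
      (Finset.mem_univ (⟨H, lam0⟩ : ι))).trans (Dvd.intro_left _ rfl)

/-- the character vanishes at the primes which divide `2 N` -/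
def Vanishes {K : Type} [Field K] [NumberField K] (N : ℕ) (ψ : Ideal (𝓞 K) →*₀ ℂ) : Prop :=
  ∀ v : HeightOneSpectrum (𝓞 K), ((2 * N : ℕ) : 𝓞 K) ∈ v.asIdeal → ψ v.asIdeal = 0

/-- the character restricted to the ideals prime to `2 N` -/
noncomputable def cut {K : Type} [Field K] [NumberField K] (N : ℕ) (ψ : Ideal (𝓞 K) →*₀ ℂ) :
    Ideal (𝓞 K) →*₀ ℂ :=
  Pool.Agent.N172.HS.mulc (psi (2 * N) (art (F := K) (E := K) 1)) ψ

theorem cut_apply {K : Type} [Field K] [NumberField K] (N : ℕ) (ψ : Ideal (𝓞 K) →*₀ ℂ)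
    (v : HeightOneSpectrum (𝓞 K)) (hv : ((2 * N : ℕ) : 𝓞 K) ∉ v.asIdeal) :
    cut N ψ v.asIdeal = ψ v.asIdeal := by
  unfold cut
  rw [Pool.Agent.N172.HS.mulc_apply, psi_apply, if_pos ⟨v.ne_bot, (cop_v (2 * N) v).2 hv⟩, dv_prime,
    art_single, one_smul]
  simp

theorem cut_vanishes {K : Type} [Field K] [NumberField K] (N : ℕ) (ψ : Ideal (𝓞 K) →*₀ ℂ) :
    Vanishes N (cut N ψ) := by
  intro v hv
  unfold cut
  rw [Pool.Agent.N172.HS.mulc_apply, psi_apply, if_neg, zero_mul]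
  rintro ⟨-, h⟩
  exact (cop_v (2 * N) v).1 h hv

theorem cut_hecke {K : Type} [Field K] [NumberField K] {N : ℕ} (hN : N ≠ 0)
    {𝔣 : Ideal (𝓞 K)} {k : (K →+* ℂ) → ℤ} {ψ : Ideal (𝓞 K) →*₀ ℂ} (h : IsHecke 𝔣 k 0 ψ) :
    IsHecke (Ideal.span {((2 * N : ℕ) : 𝓞 K)} * 𝔣) k 0 (cut N ψ) := by
  have h1 : IsHecke (Ideal.span {((2 * N : ℕ) : 𝓞 K)}) 0 0 (psi (2 * N) (art (F := K) (E := K) 1)) := by
    refine art_hecke (F := K) (M := K) 1 hN fun x _ => ?_
    have h2 : (art (F := K) (E := K) (1 : (K ≃ₐ[K] K) →* ℂˣ)) = 0 := by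
      refine Finsupp.addHom_ext fun v n => ?_
      rw [art_single]
      simp
    rw [h2]
    rfl
  have h2 := h1.mul h
  have e1 : (0 : (K →+* ℂ) → ℤ) + k = k := zero_add _
  have e2 : (0 : (K →+* ℂ) → ℝ) + (0 : (K →+* ℂ) → ℝ) = 0 := zero_add _
  rw [e1, e2] at h2
  exact h2

end

section
variable {K F M : Type} [Field K] [NumberField K] [Field F] [NumberField F] [Field M] [NumberField M]
  [Algebra K F] [Algebra K M] [Algebra F M] [IsScalarTower K F M] [IsGalois K M] [IsGalois F M]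

/-- **The twisted L-function of a linear character** is a Hecke L-function. -/
theorem lin_hecke {𝔣 : Ideal (𝓞 K)} {k : (K →+* ℂ) → ℤ} {ψ : Ideal (𝓞 K) →*₀ ℂ}
    (h : IsHecke 𝔣 k 0 ψ) (lam : fixer K F M →* ℂˣ) {N N₀ : ℕ} (hN : N ≠ 0) (hNN : N ∣ N₀)
    (hR : Ram K M N₀) (hv : Vanishes N₀ ψ)
    (hray : ∀ x ∈ Ray F N, art (lam.comp (resF K F M)) (prin x) = 0) :
    ∃ (𝔪 : Ideal (𝓞 F)) (η : Ideal (𝓞 F) →*₀ ℂ), 𝔪 ≠ ⊤ ∧
      IsHecke 𝔪 (fun ρ : F →+* ℂ => k (ρ.comp (algebraMap K F))) 0 η ∧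
      ∀ s : ℂ, 1 < s.re → twL M (fun v => ψ v.asIdeal) (induced (fixer K F M) lam) s = LI η s := by
  classical
  set l : (M ≃ₐ[F] M) →* ℂˣ := lam.comp (resF K F M) with hl
  have h1 := art_hecke l hN hray
  obtain ⟨𝔪₀, h𝔪₀⟩ := IsHecke.nrmc (E := F) h
  have h2 := h1.mul h𝔪₀
  set η : Ideal (𝓞 F) →*₀ ℂ := Pool.Agent.N172.HS.mulc (psi (2 * N) (art l)) (nrmc ψ) with hη
  set 𝔪 := Ideal.span {((2 * N : ℕ) : 𝓞 F)} * 𝔪₀ with h𝔪
  have hne : 𝔪 ≠ ⊤ := by
    intro htop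
    have h3 : Ideal.span {((2 * N : ℕ) : 𝓞 F)} = ⊤ := by
      rw [eq_top_iff, ← htop]
      exact Ideal.mul_le_left
    have h4 := Pool.Agent.Y773.absNorm_span_nat (K := F) (2 * N)
    rw [h3, Ideal.absNorm_top] at h4
    have h8 : 0 < Module.finrank ℚ F := Module.finrank_pos
    have h5 : 1 < (2 * N) ^ Module.finrank ℚ F := Nat.one_lt_pow h8.ne' (by omega)
    omega
  have h3 : IsHecke 𝔪 (fun ρ : F →+* ℂ => k (ρ.comp (algebraMap K F))) 0 η := by
    have e1 : (0 : (F →+* ℂ) → ℤ) + (fun ρ : F →+* ℂ => k (ρ.comp (algebraMap K F))) =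
        fun ρ : F →+* ℂ => k (ρ.comp (algebraMap K F)) := zero_add _
    have e2 : (0 : (F →+* ℂ) → ℝ) + (fun ρ : F →+* ℂ =>
        (0 : (K →+* ℂ) → ℝ) (ρ.comp (algebraMap K F))) = 0 := by
      funext ρ
      simp
    rw [e1, e2] at h2
    exact h2
  have hval : ∀ w : HeightOneSpectrum (𝓞 F),
      η w.asIdeal = ((lam (resF K F M (frob M w)) : ℂˣ) : ℂ) *
        upW K (fun v => ψ v.asIdeal) w := by
    intro w
    by_cases hw2 : ((2 * N : ℕ) : 𝓞 F) ∈ w.asIdeal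
    · have h4 : ((2 * N₀ : ℕ) : 𝓞 K) ∈ (w.under (𝓞 K)).asIdeal := by
        obtain ⟨c, rfl⟩ := hNN
        change algebraMap (𝓞 K) (𝓞 F) _ ∈ w.asIdeal
        rw [map_natCast, ← mul_assoc, Nat.cast_mul]
        exact Ideal.mul_mem_right _ _ hw2
      have h5 : upW K (fun v => ψ v.asIdeal) w = 0 := by
        change ψ (w.under (𝓞 K)).asIdeal ^ rdeg K w = 0
        rw [hv _ h4, zero_pow (rdeg_pos w).ne']
      rw [h5, mul_zero, hη, Pool.Agent.N172.HS.mulc_apply, psi_apply, if_neg, zero_mul]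
      rintro ⟨-, h6⟩
      exact (cop_v (2 * N) w).1 h6 hw2
    · rw [hη, Pool.Agent.N172.HS.mulc_apply, nrmc_prime, psi_apply,
        if_pos ⟨w.ne_bot, (cop_v (2 * N) w).2 hw2⟩, dv_prime, art_single, one_smul]
      rfl
  refine ⟨𝔪, η, hne, h3, fun s hs => ?_⟩
  have hω : ∀ v : HeightOneSpectrum (𝓞 K), ‖ψ v.asIdeal‖ ≤ 1 := fun v => norm_le h _
  have hηn : ∀ 𝔞, ‖η 𝔞‖ ≤ 1 := norm_le h3
  rw [twL_induced hω lam l (fun y hy => rfl) hs, LI_eq_LP hηn hs]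
  refine LP_ext (fun w _ _ => (hval w).symm) (fun w _ hw => absurd (Set.mem_univ _) hw)
    (fun w _ hw => ?_) s
  have h4 : (N₀ : 𝓞 K) ∈ (w.under (𝓞 K)).asIdeal := hR _ hw
  have h5 : ((2 * N₀ : ℕ) : 𝓞 K) ∈ (w.under (𝓞 K)).asIdeal := by
    rw [Nat.cast_mul]
    exact Ideal.mul_mem_left _ _ h4
  have h6 : upW K (fun v => ψ v.asIdeal) w = 0 := by
    change ψ (w.under (𝓞 K)).asIdeal ^ rdeg K w = 0
    rw [hv _ h5, zero_pow (rdeg_pos w).ne']
  rw [hval w, h6, mul_zero]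

end

section
variable {K : Type} [Field K] [NumberField K]

/-- **Hecke characters of trivial type.** -/
theorem cont_triv {𝔣 : Ideal (𝓞 K)} {k : (K →+* ℂ) → ℤ} {η : Ideal (𝓞 K) →*₀ ℂ}
    (h : IsHecke 𝔣 k 0 η) (htop : 𝔣 ≠ ⊤) (hk : ¬ NT k) :
    ∃ f : ℂ → ℂ, MeromorphicOn f Set.univ ∧ (∀ s : ℂ, 1 < s.re → f s = LI η s) ∧
      ∀ s : ℂ, s ≠ 1 → AnalyticAt ℂ f s := by
  classical
  obtain ⟨𝔤, e, ψ', hdvd, hne, hele, hecx, hsupp, hsig, hprim, heq⟩ :=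
    Pool.Agent.Q264.AR.prim K 𝔣 η h.ne_bot h.supp (by
      intro x hx0 hx1 hxp
      rw [ray_ph h hx0 hx1 hxp, nt_eq_zero hk, Pool.Agent.N784.HC.ph_zero_type])
  obtain ⟨hnorm, g, hg, hgL⟩ := Pool.Agent.Q84.AR.cont_prim hne hele hecx hsupp hsig hprim
  have hbot : η ⊥ = 0 := map_zero η
  have h1 : η = Pool.Agent.Y773.AB.res 𝔣 htop ψ' := by
    ext 𝔞
    by_cases hc : IsCoprime 𝔞 𝔣
    · rw [Pool.Agent.Y773.AB.res_cop htop _ hc, heq 𝔞 hc]
    · rw [Pool.Agent.Y773.AB.res_not htop _ hc]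
      by_contra h2
      by_cases h3 : 𝔞 = ⊥
      · rw [h3] at h2
        exact h2 hbot
      · exact hc ((h.supp 𝔞 h3).1 h2)
  have hL : ∀ s : ℂ, 1 < s.re → LI η s = LI ψ' s * Pool.Agent.Y773.AB.Ef 𝔣 ψ' s := fun s hs => by
    rw [h1]
    exact Pool.Agent.Y773.AB.LI_res h.ne_bot htop hnorm hs
  have hd : Differentiable ℂ (fun s => g s * Pool.Agent.Y773.AB.Ef 𝔣 ψ' s) :=
    hg.mul (Pool.Agent.Y773.AB.Ef_diff h.ne_bot ψ')
  rcases hgL with h2 | ⟨ht, h2⟩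
  · refine ⟨fun s => g s * Pool.Agent.Y773.AB.Ef 𝔣 ψ' s, fun s _ => (hd.analyticAt s).meromorphicAt,
      fun s hs => ?_, fun s _ => hd.analyticAt s⟩
    change g s * _ = _
    rw [hL s hs, h2 s hs]
  · -- the factor vanishes at `0`
    have hE0 : Pool.Agent.Y773.AB.Ef 𝔣 ψ' 0 = 0 := by
      obtain ⟨P, hP, hPle⟩ := Ideal.exists_le_maximal 𝔣 htop
      have hPbot : P ≠ ⊥ := by
        rintro rfl
        exact h.ne_bot (le_bot_iff.1 hPle)
      have hPp : Prime P := Ideal.prime_of_isPrime hPbot hP.isPrime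
      rw [Pool.Agent.Y773.AB.Ef_eq h.ne_bot]
      refine Finset.prod_eq_zero (i := ⟨P, hPp⟩) ?_ ?_
      · rw [Set.Finite.mem_toFinset]
        exact Ideal.dvd_iff_le.2 hPle
      · rw [neg_zero, Complex.cpow_zero, mul_one]
        change 1 - ψ' P = 0
        rw [ht P hPbot, sub_self]
    set H : ℂ → ℂ := fun s => g s * Pool.Agent.Y773.AB.Ef 𝔣 ψ' s with hH
    have hH0 : H 0 = 0 := by
      change g 0 * _ = 0
      rw [hE0, mul_zero]
    have hds : Differentiable ℂ (dslope H 0) := by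
      have h3 := (Complex.differentiableOn_dslope (f := H) (c := 0) (s := Set.univ)
        Filter.univ_mem).2 hd.differentiableOn
      exact differentiableOn_univ.1 h3
    have hd1 : Differentiable ℂ fun s : ℂ => s - 1 := by fun_prop
    refine ⟨fun s => dslope H 0 s / (s - 1), fun s _ =>
      (hds.analyticAt s).meromorphicAt.div (hd1.analyticAt s).meromorphicAt, fun s hs => ?_,
      fun s hs1 => (hds.analyticAt s).div (hd1.analyticAt s) (sub_ne_zero.2 hs1)⟩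
    have hs0 : s ≠ 0 := by
      rintro rfl
      simp at hs
      linarith
    have hs1 : s - 1 ≠ 0 := by
      intro h4
      have h5 : s = 1 := sub_eq_zero.1 h4
      rw [h5] at hs
      simp at hs
    change dslope H 0 s / (s - 1) = _
    rw [dslope_of_ne _ hs0, slope_def_field, hH0, hL s hs, h2 s hs, hH]
    simp only [sub_zero]
    field_simp

end

section
variable {K M : Type} [Field K] [NumberField K] [Field M] [NumberField M] [Algebra K M]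
  [IsGalois K M]

/-- **Hecke characters of nontrivial type**: everything is entire. -/
theorem linC_nt {N₀ : ℕ} (hN₀ : Enough K M N₀) {𝔣 : Ideal (𝓞 K)} {k : (K →+* ℂ) → ℤ}
    {ψ : Ideal (𝓞 K) →*₀ ℂ} (h : IsHecke 𝔣 k 0 ψ) (hv : Vanishes N₀ ψ) (hk : NT k) :
    LinC M (fun v => ψ v.asIdeal) Set.univ := by
  intro H lam0
  have hfix := fixer_fixedField (K := K) (M := M) H
  have hgal : IsGalois (IntermediateField.fixedField H) M := inferInstance
  let lam : fixer K (IntermediateField.fixedField H) M →* ℂˣ :=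
    lam0.comp (Subgroup.inclusion (le_of_eq hfix))
  have h2 : induced (fixer K (IntermediateField.fixedField H) M) lam = induced H lam0 :=
    induced_congr hfix fun x hx hx' => rfl
  rw [← h2]
  obtain ⟨N, hN, hNN, hray⟩ := hN₀.2 H lam0
  obtain ⟨𝔪, η, htop, h3, hE⟩ := lin_hecke h lam hN hNN hN₀.1 hv hray
  obtain ⟨F, hF, hFL⟩ := entire_nt h3 htop ((nt_comp _).2 hk)
  refine ⟨F, ⟨fun s hs => (hF.analyticAt s).meromorphicAt, fun s hs => ?_⟩,
    fun s hs => hF.analyticAt s, fun s hs => hF.analyticAt s⟩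
  rw [hFL s hs, hE s hs]

/-- **Hecke characters of trivial type**: everything is analytic for `s ≠ 1`. -/
theorem linC_triv {N₀ : ℕ} (hN₀ : Enough K M N₀) {𝔣 : Ideal (𝓞 K)} {k : (K →+* ℂ) → ℤ}
    {ψ : Ideal (𝓞 K) →*₀ ℂ} (h : IsHecke 𝔣 k 0 ψ) (hv : Vanishes N₀ ψ) (hk : ¬ NT k) :
    LinC M (fun v => ψ v.asIdeal) {s : ℂ | s ≠ 1} := by
  intro H lam0
  have hfix := fixer_fixedField (K := K) (M := M) H
  have hgal : IsGalois (IntermediateField.fixedField H) M := inferInstance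
  let lam : fixer K (IntermediateField.fixedField H) M →* ℂˣ :=
    lam0.comp (Subgroup.inclusion (le_of_eq hfix))
  have h2 : induced (fixer K (IntermediateField.fixedField H) M) lam = induced H lam0 :=
    induced_congr hfix fun x hx hx' => rfl
  rw [← h2]
  obtain ⟨N, hN, hNN, hray⟩ := hN₀.2 H lam0
  obtain ⟨𝔪, η, htop, h3, hE⟩ := lin_hecke h lam hN hNN hN₀.1 hv hray
  obtain ⟨F, hF1, hF2, hF3⟩ := cont_triv h3 htop (fun h4 => hk ((nt_comp _).1 h4))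
  refine ⟨F, ⟨hF1, fun s hs => ?_⟩, fun s hs => hF3 s ?_, fun s hs => hF3 s hs⟩
  · rw [hF2 s hs, hE s hs]
  · rintro rfl
    simp at hs

end

/-- **The L-functions without the Euler factors at finitely many primes, in the whole plane.** -/
theorem entire (N : ℕ) : ∃ m₀ : ℕ, 0 < m₀ ∧ ∀ m : ℕ, 0 < m → m₀ ∣ m →
    ∀ (k L : Type) [Field k] [NumberField k] [Field L] [NumberField L] [Algebra k L] [IsGalois k L]
      (K : IntermediateField k L)
      (j : Perm (Fin m) →* (L ≃ₐ[k] L)) (ι : (L ≃ₐ[K] L) →* Perm (Fin m)), FreeHom ι →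
      Nat.card (L ≃ₐ[K] L) ≤ N → (∀ g, j (ι g) = inc k K L g) →
      (∀ w : HeightOneSpectrum (𝓞 K), Unramified L w) → ∀ N₀ : ℕ, N₀ ≠ 0 → Enough k L N₀ →
      ∀ (𝔣 : Ideal (𝓞 k)) (n : (k →+* ℂ) → ℤ) (ψ : Ideal (𝓞 k) →*₀ ℂ), IsHecke 𝔣 n 0 ψ →
        Vanishes N₀ ψ → ∀ (r : ℕ) (ρ : Representation ℂ (L ≃ₐ[K] L) (Fin r → ℂ)),
          ∃ g : ℂ → ℂ, MeromorphicOn g Set.univ ∧
            (∀ s : ℂ, 1 < s.re → HasProd (fun v : HeightOneSpectrum (𝓞 K) =>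
              (((ρ (frob L v)).charpoly.roots.map fun z => 1 - z *
                ψ (Ideal.relNorm (𝓞 k) v.asIdeal) * (nm v : ℂ) ^ (-s)).prod)⁻¹) (g s)) ∧
            (∀ s : ℂ, s ≠ 1 → AnalyticAt ℂ g s) ∧
            ((NT n ∨ ∀ v : Fin r → ℂ, (∃ T : Finset (HeightOneSpectrum (𝓞 K)), ∀ w ∉ T,
              ∀ σ : L ≃ₐ[K] L, IsFrobenius w σ →
              ψ (Ideal.relNorm (𝓞 k) w.asIdeal) • ρ σ v = v) → v = 0) →
                AnalyticAt ℂ g 1) := by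
  obtain ⟨m₀, hm₀, hcore⟩ := core N
  refine ⟨m₀, hm₀, ?_⟩
  intro m hm hdvd k L _ _ _ _ _ _ K j ι hι hcard hj hun N₀ hN₀ hen 𝔣 n ψ h hv r ρ
  have hω : ∀ v : HeightOneSpectrum (𝓞 k), ‖ψ v.asIdeal‖ ≤ 1 := fun v => norm_le h _
  have hz : ∀ v : HeightOneSpectrum (𝓞 k), ¬ Unramified L v → ψ v.asIdeal = 0 := by
    intro v hv1
    refine hv v ?_
    rw [Nat.cast_mul]
    exact Ideal.mul_mem_left _ _ (hen.1 v hv1)
  have hup : ∀ v : HeightOneSpectrum (𝓞 K), upW k (fun v => ψ v.asIdeal) v =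
      ψ (Ideal.relNorm (𝓞 k) v.asIdeal) := fun v => (nrmc_prime ψ v).symm
  by_cases hk : NT n
  · have hlin := linC_nt (M := L) hen h hv hk
    have hc := hcore m hm hdvd k K L j ι hι hcard hj hun (fun v => ψ v.asIdeal) _ hω hz hlin
    obtain ⟨g, h1, h2, h3⟩ := rep_cont (norm_upW hω) (linC_up (F := K) hω hz hun hlin) hun ρ
    have h4 : ∀ s : ℂ, AnalyticAt ℂ g s := fun s => h3 s fun χ hχ _ =>
      hc s (Set.mem_univ _) χ hχ
    refine ⟨g, h1, fun s hs => ?_, fun s _ => h4 s, fun _ => h4 1⟩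
    have h5 := h2 s hs
    simp only [hup] at h5
    exact h5
  · have hlin := linC_triv (M := L) hen h hv hk
    have hc := hcore m hm hdvd k K L j ι hι hcard hj hun (fun v => ψ v.asIdeal) _ hω hz hlin
    have hlin' := linC_up (F := K) hω hz hun hlin
    have hlin0 := Pool.Agent.H511.Cm.linC_triv (M := L) h hk
    obtain ⟨g, h1, h2, h3⟩ := rep_cont (norm_upW hω) hlin' hun ρ
    refine ⟨g, h1, fun s hs => ?_, fun s hs1 => h3 s fun χ hχ _ => hc s hs1 χ hχ, fun hstar => ?_⟩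
    · have h5 := h2 s hs
      simp only [hup] at h5
      exact h5
    · have hstar' := hstar.resolve_left hk
      refine h3 1 fun χ hχ hmult => ?_
      by_cases hd : χ 1 = 1
      · obtain ⟨l, rfl⟩ := exists_lin hχ hd
        rcases lin_star (F := K) (L := L) h hk l with h5 | ⟨T, hT⟩
        · exact h5
        · exfalso
          obtain ⟨v, hv, hve⟩ := eigvec ρ l hmult
          refine hv (hstar' v ⟨T, fun w hw σ hσ => ?_⟩)
          obtain ⟨x, hx⟩ := isFrobenius_conj (hun w) (frob_spec (M := L) w) hσ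
          have h6 : l σ = l (frob L w) := by
            rw [hx, map_mul, map_mul, map_inv, mul_comm ((l x)⁻¹), inv_mul_cancel_right]
          rw [hve, h6, smul_smul, mul_comm, hT w hw, one_smul]
      · rw [order_one_zero (norm_upW hω) hlin' ((lin1_triv (M := L) h hk).up (F := K) hω hlin0
          (fun s hs => hs.1)) hχ hd]

end Pool.Agent.H511.Sx
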