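import Pool.Agent.H511.Sx.Main

/-!
# The groups of the extensions `L/K`
-/

set_option autoImplicit false
set_option linter.unusedSectionVars false

namespace Pool.Agent.H511.Sx

open NumberField IsDedekindDomain Pool.Agent.Q92.AR Pool.Agent.Y786.FR Equiv Pool.Agent.H511.Ex

/-- The group of `L/K` comes from a free subgroup of the symmetric group. -/
theorem fields (N m : ℕ) (hm : 3 ≤ m) (hdvd : N.factorial ∣ m)
    (k : Type) [Field k] [NumberField k] (hmk : Module.finrank ℚ k < 2 * m) (n : ℕ) (hn : 0 < n)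
    (L : Type) [Field L] [NumberField L] [Algebra k L] [IsGalois k L] (hL : IsField k L n (2 * m))
    (K : IntermediateField k L) (hK : Adm K n (2 * m)) (hKN : Module.finrank K L ≤ N) :
    Nat.card (L ≃ₐ[K] L) ≤ N ∧
      ∃ (j : Perm (Fin m) →* (L ≃ₐ[k] L)) (ι : (L ≃ₐ[K] L) →* Perm (Fin m)), FreeHom ι ∧
        ∀ g, j (ι g) = inc k K L g := by
  classical
  have hm2 : 2 ≤ 2 * m := by omega
  obtain ⟨Φ, r, hrinj, hroot, hgr, halt, hswap, hconj⟩ :=
    act k (2 * m) (by omega) hmk L (hL.splits hn hm2)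
  have hinj : ∀ g ∈ fixMu k L n, Φ g = 1 → g = 1 := by
    intro g hg h1
    refine hL.eq_one hn hm2 hg fun x hx => ?_
    obtain ⟨i, rfl⟩ := (hroot x).1 hx
    rw [hgr, h1]
    rfl
  have haltA := alt_le_map (k := k) (L := L) (by omega) n hn Φ halt
  have hgK : IsGalois K L := inferInstance
  have hcard : Nat.card (L ≃ₐ[K] L) ≤ N := by
    rw [IsGalois.card_aut_eq_finrank]
    exact hKN
  have hi : ∀ g : L ≃ₐ[K] L, inc k K L g ∈ fixMu k L n := by
    intro g ζ hζ
    exact g.commutes (⟨ζ, hK.1 ζ hζ⟩ : K)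
  -- the action on the roots is free
  have hfree : FreeHom (Φ.comp (inc k K L)) := by
    intro g hg i hgi
    apply hg
    have h1 : g (r i : L) = r i := by
      have h2 := hgr (inc k K L g) i
      have h3 : Φ (inc k K L g) i = i := hgi
      rw [h3] at h2
      exact h2
    have h2 := hK.2 (r i) ((hroot _).2 ⟨i, rfl⟩)
    have h4 : IntermediateField.adjoin K {((r i : 𝓞 L) : L)} ≤
        IntermediateField.fixedField (Subgroup.zpowers g) := by
      rw [IntermediateField.adjoin_simple_le_iff, IntermediateField.mem_fixedField_iff]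
      intro τ hτ
      have h5 : Subgroup.zpowers g ≤ MulAction.stabilizer (L ≃ₐ[K] L) ((r i : 𝓞 L) : L) := by
        rw [Subgroup.zpowers_le]
        exact h1
      exact h5 hτ
    rw [h2, top_le_iff] at h4
    apply AlgEquiv.ext
    intro x
    have h6 : x ∈ IntermediateField.fixedField (Subgroup.zpowers g) := by
      rw [h4]; trivial
    rw [IntermediateField.mem_fixedField_iff] at h6
    exact h6 g (Subgroup.mem_zpowers g)
  have hdG : Nat.card (L ≃ₐ[K] L) ∣ m := (Nat.dvd_factorial Nat.card_pos hcard).trans hdvd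
  obtain ⟨ι, j, hι, hji⟩ := hom (fixMu k L n) Φ hinj haltA hdG (inc k K L) hi hfree
  exact ⟨hcard, j, ι, hι, hji⟩

end Pool.Agent.H511.Sx
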