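import Pool.Agent.H511.Sx.Base
import Pool.Agent.H511.Sx.Conj

/-!
# Free groups of automorphisms come from the symmetric group
-/

set_option autoImplicit false
set_option linter.unusedSectionVars false

namespace Pool.Agent.H511.Sx

open NumberField Polynomial Module Pool.Agent.H511.Ex Pool.Agent.Y786.FR Equiv

theorem dbl_fix {m : ℕ} {σ : Perm (Fin m)} {i : Fin (2 * m)} (h : dbl m σ i = i) :
    ∃ x, σ x = x := by
  obtain ⟨⟨y, x⟩, rfl⟩ := finProdFinEquiv.surjective i
  change finProdFinEquiv ((Equiv.prodCongrRight fun _ : Fin 2 => σ)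
    (finProdFinEquiv.symm (finProdFinEquiv (y, x)))) = _ at h
  rw [Equiv.symm_apply_apply] at h
  have h3 := finProdFinEquiv.injective h
  exact ⟨x, congrArg Prod.snd h3⟩

/-- a free permutation that is trivial or a transposition is trivial -/
theorem one_of_free {G : Type} [Group G] {M : ℕ} (hM : 3 ≤ M) {e : G →* Perm (Fin M)}
    (he : FreeHom e) {g : G} (h : e g = 1 ∨ (e g).IsSwap) : g = 1 := by
  by_contra hg
  rcases h with h | ⟨a, b, hab, h⟩
  · exact he g hg ⟨0, by omega⟩ (by rw [h]; rfl)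
  · obtain ⟨c, hc⟩ : ∃ c : Fin M, c ∉ ({a, b} : Finset (Fin M)) := by
      by_contra hcon
      push Not at hcon
      have h1 : (Finset.univ : Finset (Fin M)) ⊆ {a, b} := fun x _ => hcon x
      have h2 := Finset.card_le_card h1
      rw [Finset.card_univ, Fintype.card_fin] at h2
      have h3 := Finset.card_le_two (a := a) (b := b)
      omega
    simp only [Finset.mem_insert, Finset.mem_singleton, not_or] at hc
    refine he g hg c ?_
    rw [h]
    exact Equiv.swap_apply_of_ne_of_ne hc.1 hc.2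

variable {k L : Type} [Field k] [Field L] [Algebra k L]

/-- A group of automorphisms which acts freely on the `2 m` roots is the image of a free subgroup of
the symmetric group of `m` letters. -/
theorem hom {m : ℕ} (A : Subgroup (L ≃ₐ[k] L)) (Φ : (L ≃ₐ[k] L) →* Perm (Fin (2 * m)))
    (hinj : ∀ g ∈ A, Φ g = 1 → g = 1) (halt : alternatingGroup (Fin (2 * m)) ≤ A.map Φ)
    {G : Type} [Group G] [Finite G] (hG : Nat.card G ∣ m) (i : G →* (L ≃ₐ[k] L))
    (hi : ∀ g, i g ∈ A) (hfree : FreeHom (Φ.comp i)) :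
    ∃ (ι : G →* Perm (Fin m)) (j : Perm (Fin m) →* (L ≃ₐ[k] L)), FreeHom ι ∧
      ∀ g, j (ι g) = i g := by
  classical
  obtain ⟨ι, hι⟩ := exists_freeHom G hG
  have h1 : FreeHom ((dbl m).comp ι) := by
    intro g hg x hx
    obtain ⟨y, hy⟩ := dbl_fix (m := m) (σ := ι g) hx
    exact hι g hg y hy
  obtain ⟨τ, hτ⟩ := free_conj ((dbl m).comp ι) (Φ.comp i) h1 hfree
  let ΦA : A →* Perm (Fin (2 * m)) := Φ.comp A.subtype
  have hΦA : Function.Injective ΦA := by
    rw [injective_iff_map_eq_one]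
    intro a ha
    exact Subtype.ext (hinj a a.2 ha)
  let e := MonoidHom.ofInjective hΦA
  have hmem : ∀ σ : Perm (Fin m), τ * dbl m σ * τ⁻¹ ∈ ΦA.range := by
    intro σ
    have h2 : τ * dbl m σ * τ⁻¹ ∈ alternatingGroup (Fin (2 * m)) := by
      rw [Equiv.Perm.mem_alternatingGroup, map_mul, map_mul, map_inv,
        Equiv.Perm.mem_alternatingGroup.1 (dbl_mem m σ), mul_one, mul_inv_cancel]
    obtain ⟨a, ha, hb⟩ := halt h2
    exact ⟨⟨a, ha⟩, hb⟩
  let d : Perm (Fin m) →* ΦA.range :=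
    ((MulAut.conj τ).toMonoidHom.comp (dbl m)).codRestrict ΦA.range hmem
  let j : Perm (Fin m) →* (L ≃ₐ[k] L) := A.subtype.comp (e.symm.toMonoidHom.comp d)
  refine ⟨ι, j, hι, fun g => ?_⟩
  have h2 : e.symm (d (ι g)) = ⟨i g, hi g⟩ := by
    apply hΦA
    have h3 : ((e (e.symm (d (ι g))) : ΦA.range) : Perm (Fin (2 * m))) = τ * dbl m (ι g) * τ⁻¹ := by
      rw [MulEquiv.apply_symm_apply]
      rfl
    change ((e (e.symm (d (ι g))) : ΦA.range) : Perm (Fin (2 * m))) = Φ (i g)
    rw [h3]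
    exact hτ g
  change ((e.symm (d (ι g)) : A) : L ≃ₐ[k] L) = i g
  rw [h2]

end Pool.Agent.H511.Sx
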