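import Pool.Agent.H511.Sx.Split
import Pool.Agent.H511.Ex.Main

/-!
# Artin L-functions of the fields of the roots of `X ^ (2 m) - X - 1`
-/

set_option autoImplicit false
set_option linter.unusedSectionVars false

namespace Pool.Agent.H511.Sx

open NumberField IsDedekindDomain Filter Topology Pool.Agent.H921R2.TatePole Pool.Agent.W353.NF
  Pool.Agent.Q5.BR Pool.Agent.H302R2 Pool.Agent.H541R3.ART Pool.Agent.W446.AS Pool.Agent.Q92.AR
  Pool.Agent.Y786.FR Equiv Pool.Agent.H511.Ex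
open Pool.Agent.Q92.RT (induced)

/-- the conclusions on the Artin L-functions of `L/K` -/
def Nice (k : Type) {L : Type} [Field k] [NumberField k] [Field L] [NumberField L] [Algebra k L]
    (K : IntermediateField k L) (ε : ℝ) : Prop :=
  (∀ χ ∈ Irr (L ≃ₐ[K] L), MeromorphicOn (Lam χ) Set.univ ∧
    (∀ s : ℂ, 1 < s.re → Lam χ s = artinL L χ s) ∧
    (∀ s : ℂ, 0 < s.re → (s ≠ 1 ∨ χ ≠ fun _ => 1) → AnalyticAt ℂ (Lam χ) s) ∧
    ∃ (a l : ℕ) (H : Fin l → Subgroup (L ≃ₐ[k] L)) (lam : ∀ i, H i →* ℂˣ), 0 < a ∧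
      Cmp (fun s => artinL L χ s ^ a) (fun s => ∏ i, artinL L (induced (H i) (lam i)) s) ∧
      (χ ≠ (fun _ => 1) → ∀ i, lam i ≠ 1)) ∧
  ∀ χ ∈ Irr (L ≃ₐ[K] L), χ ≠ (fun _ => 1) → ∀ χ' ∈ Irr (L ≃ₐ[K] L), ∀ s : ℂ,
    0 < s.re → s ≠ 1 → (analyticOrderNatAt (Lam χ) s : ℝ) * (χ' 1).re ≤
      (1 + ε) * (analyticOrderNatAt (Lam χ') s * (χ 1).re)

theorem nice_of {k L : Type} [Field k] [NumberField k] [Field L] [NumberField L] [Algebra k L]
    [IsGalois k L] (K : IntermediateField k L) (ε : ℝ)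
    (hC1 : ∀ χ ∈ Irr (L ≃ₐ[K] L), ∃ (a l : ℕ) (H : Fin l → Subgroup (L ≃ₐ[k] L))
        (lam : ∀ i, H i →* ℂˣ), 0 < a ∧
        Cmp (fun s => artinL L χ s ^ a) (fun s => ∏ i, artinL L (induced (H i) (lam i)) s) ∧
        (χ ≠ (fun _ => 1) → ∀ i, lam i ≠ 1))
    (hC2 : ∀ s₀ : ℂ, 0 < s₀.re → s₀ ≠ 1 → ∃ o : ((L ≃ₐ[K] L) → ℂ) → ℤ,
        (∀ χ ∈ Irr (L ≃ₐ[K] L), meromorphicOrderAt (cont (artinL L χ)) s₀ = o χ ∧ 0 ≤ o χ) ∧
        ∀ χ ∈ Irr (L ≃ₐ[K] L), χ ≠ (fun _ => 1) → ∀ χ' ∈ Irr (L ≃ₐ[K] L),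
          o χ * (χ' 1).re ≤ (1 + ε) * (o χ' * (χ 1).re)) : Nice k K ε := by
  have hnonneg : ∀ χ ∈ Irr (L ≃ₐ[K] L), ∀ s : ℂ, 0 < s.re → (s ≠ 1 ∨ χ ≠ fun _ => 1) →
      0 ≤ meromorphicOrderAt (cont (artinL L χ)) s := by
    intro χ hχ s h0 h1
    by_cases hs : s = 1
    · rw [hs]
      have hne : χ ≠ fun _ => 1 := h1.resolve_left fun h => h hs
      obtain ⟨a, l, H, lam, ha, h2, h3⟩ := hC1 χ hχ
      exact order_one hχ ha h2 (h3 hne)
    · obtain ⟨o, ho, -⟩ := hC2 s h0 hs
      obtain ⟨h2, h3⟩ := ho χ hχ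
      rw [h2]
      exact_mod_cast h3
  refine ⟨?_, ?_⟩
  · intro χ hχ
    exact ⟨Lam_mero χ, fun s hs => Lam_eq hχ hs, fun s h0 h1 =>
      Lam_analytic hχ (hnonneg χ hχ s h0 h1), hC1 χ hχ⟩
  · intro χ hχ hne χ' hχ' s h0 h1
    obtain ⟨o, ho, ho2⟩ := hC2 s h0 h1
    have hnat : ∀ φ ∈ Irr (L ≃ₐ[K] L), ((analyticOrderNatAt (Lam φ) s : ℕ) : ℝ) = o φ := by
      intro φ hφ
      have h2 := Lam_analytic hφ (hnonneg φ hφ s h0 (Or.inl h1))
      obtain ⟨h3, h4⟩ := ho φ hφ
      rw [← Lam_order hφ, h2.meromorphicOrderAt_eq] at h3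
      have hnt : analyticOrderAt (Lam φ) s ≠ ⊤ := by
        intro h5
        rw [h5] at h3
        exact absurd h3 (by simp)
      obtain ⟨n, hn⟩ : ∃ n : ℕ, analyticOrderAt (Lam φ) s = n := by
        obtain ⟨n, hn⟩ := ENat.ne_top_iff_exists.1 hnt
        exact ⟨n, hn.symm⟩
      unfold analyticOrderNatAt
      rw [hn] at h3 ⊢
      have h6 : ((n : ℤ) : WithTop ℤ) = (o φ : WithTop ℤ) := h3
      have h7 : (n : ℤ) = o φ := by exact_mod_cast h6
      rw [← h7]
      simp
    have h2 := ho2 χ hχ hne χ' hχ'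
    rw [hnat χ hχ, hnat χ' hχ']
    exact h2

/-- The fields `K`: they contain the `n`-th roots of unity and become `L` by the adjunction of any
root of `X ^ M - X - 1`. -/
def Adm {k L : Type} [Field k] [Field L] [Algebra k L] (K : IntermediateField k L) (n M : ℕ) : Prop :=
  (∀ ζ : L, ζ ^ n = 1 → ζ ∈ K) ∧ ∀ x : L, x ^ M = x + 1 → IntermediateField.adjoin K {x} = ⊤

/-- **Main theorem.** -/
theorem main (N : ℕ) (ε : ℝ) (hε : 0 < ε) : ∃ m₀ : ℕ, 0 < m₀ ∧ ∀ m : ℕ, 0 < m → m₀ ∣ m →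
    ∀ (k : Type) [Field k] [NumberField k], Module.finrank ℚ k < 2 * m → ∀ n : ℕ, 0 < n →
    ∀ (L : Type) [Field L] [NumberField L] [Algebra k L], IsField k L n (2 * m) →
      IsGalois k L ∧
      (∀ K : IntermediateField k L, Adm K n (2 * m) → Module.finrank K L ≤ N →
        (∀ v : HeightOneSpectrum (𝓞 K), Unramified L v) ∧ IsUnramifiedAtInfinitePlaces K L ∧
        (∀ q : ℕ, q.Prime → (q ^ (2 * m).factorial - 1) ∣ n → ∀ w : HeightOneSpectrum (𝓞 L),
          (q : 𝓞 L) ∈ w.asIdeal →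
            Ideal.absNorm w.asIdeal = Ideal.absNorm (w.under (𝓞 K)).asIdeal) ∧
        Nice k K ε) ∧
      ∀ (G : Type) [Group G] [Finite G], Nat.card G ≤ N →
        ∃ K : IntermediateField k L, Adm K n (2 * m) ∧ Nonempty ((L ≃ₐ[K] L) ≃* G) := by
  classical
  obtain ⟨m₀, hm₀, hcore⟩ := core N ε hε
  refine ⟨m₀ * N.factorial * 3, by positivity, ?_⟩
  intro m hm hdvd k _ _ hmk n hn L _ _ _ hL
  have hd1 : m₀ ∣ m := ((Dvd.intro _ rfl : m₀ ∣ m₀ * N.factorial).trans (Dvd.intro _ rfl)).trans hdvd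
  have hd2 : N.factorial ∣ m :=
    ((Dvd.intro_left _ rfl : N.factorial ∣ m₀ * N.factorial).trans (Dvd.intro _ rfl)).trans hdvd
  have hm3 : 3 ≤ m := Nat.le_of_dvd hm ((Dvd.intro_left _ rfl : 3 ∣ m₀ * N.factorial * 3).trans hdvd)
  have hgal : IsGalois k L := hL.galois
  have hm2 : 2 ≤ 2 * m := by omega
  obtain ⟨Φ, r, hrinj, hroot, hgr, halt, hswap, hconj⟩ :=
    act k (2 * m) (by omega) hmk L (hL.splits hn hm2)
  have hinj : ∀ g ∈ fixMu k L n, Φ g = 1 → g = 1 := by
    intro g hg h1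
    refine hL.eq_one hn hm2 hg fun x hx => ?_
    obtain ⟨i, rfl⟩ := (hroot x).1 hx
    rw [hgr, h1]
    rfl
  have haltA := alt_le_map (k := k) (L := L) (by omega) n hn Φ halt
  refine ⟨hgal, ?_, ?_⟩
  · intro K hK hKN
    have hgK : IsGalois K L := inferInstance
    have hcard : Nat.card (L ≃ₐ[K] L) ≤ N := by
      rw [IsGalois.card_aut_eq_finrank]
      exact hKN
    have hi : ∀ g : L ≃ₐ[K] L, inc k K L g ∈ fixMu k L n := by
      intro g ζ hζ
      exact g.commutes (⟨ζ, hK.1 ζ hζ⟩ : K)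
    -- the action on the roots is free
    have hfree : FreeHom (Φ.comp (inc k K L)) := by
      intro g hg i hgi
      apply hg
      have h1 : g (r i : L) = r i := by
        have h2 := hgr (inc k K L g) i
        have h3 : Φ (inc k K L g) i = i := hgi
        rw [h3] at h2
        exact h2
      have h2 := hK.2 (r i) ((hroot _).2 ⟨i, rfl⟩)
      have h4 : IntermediateField.adjoin K {((r i : 𝓞 L) : L)} ≤
          IntermediateField.fixedField (Subgroup.zpowers g) := by
        rw [IntermediateField.adjoin_simple_le_iff, IntermediateField.mem_fixedField_iff]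
        intro τ hτ
        have h5 : Subgroup.zpowers g ≤ MulAction.stabilizer (L ≃ₐ[K] L) ((r i : 𝓞 L) : L) := by
          rw [Subgroup.zpowers_le]
          exact h1
        exact h5 hτ
      rw [h2, top_le_iff] at h4
      apply AlgEquiv.ext
      intro x
      have h6 : x ∈ IntermediateField.fixedField (Subgroup.zpowers g) := by
        rw [h4]; trivial
      rw [IntermediateField.mem_fixedField_iff] at h6
      exact h6 g (Subgroup.mem_zpowers g)
    have hdG : Nat.card (L ≃ₐ[K] L) ∣ m := (Nat.dvd_factorial Nat.card_pos hcard).trans hd2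
    obtain ⟨ι, j, hι, hji⟩ := hom (fixMu k L n) Φ hinj haltA hdG (inc k K L) hi hfree
    obtain ⟨hC1, hC2⟩ := hcore m hm hd1 k K L j ι hι hcard hji
    refine ⟨?_, ⟨fun w => ?_⟩, ?_, nice_of K ε hC1 hC2⟩
    · refine unram_of_inertia fun P hP g hg => ?_
      exact one_of_free (by omega) hfree (hswap P hP (inc k K L g) fun i => hg (r i))
    · rw [← InfinitePlace.mk_embedding w, InfinitePlace.isUnramified_mk_iff_forall_isConj]
      intro g hg
      have h1 : ComplexEmbedding.IsConj w.embedding (inc k K L g) := hg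
      obtain ⟨i, hi'⟩ := hconj _ _ h1
      by_contra hne
      exact hfree g hne i hi'
    · intro q hq hqn w hw
      obtain ⟨g, hg⟩ := exists_frob K w
      have h1 : g = 1 := by
        refine one_of_free (by omega) hfree (hswap w.asIdeal w.isPrime (inc k K L g) fun i => ?_)
        exact frob_root K hn hm2 (hL.splits_one hn hm2) hK.1 q hq hqn w hw (r i)
          ((hroot _).2 ⟨i, rfl⟩) g hg
      rw [h1] at hg
      exact norm_of_frob_one K w hg
  · intro G _ _ hG
    have hdG : Nat.card G ∣ m := (Nat.dvd_factorial Nat.card_pos hG).trans hd2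
    obtain ⟨e0, he0⟩ := exists_freeHom G hdG
    -- lift the doubled action to the group of `L`
    let A := fixMu k L n
    let ΦA : A →* Perm (Fin (2 * m)) := Φ.comp A.subtype
    have hΦA : Function.Injective ΦA := by
      rw [injective_iff_map_eq_one]
      intro a ha
      exact Subtype.ext (hinj a a.2 ha)
    let e := MonoidHom.ofInjective hΦA
    have hmem : ∀ σ : Perm (Fin m), dbl m σ ∈ ΦA.range := by
      intro σ
      obtain ⟨a, ha, hb⟩ := haltA (dbl_mem m σ)
      exact ⟨⟨a, ha⟩, hb⟩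
    let d : Perm (Fin m) →* ΦA.range := (dbl m).codRestrict ΦA.range hmem
    let j : Perm (Fin m) →* (L ≃ₐ[k] L) := A.subtype.comp (e.symm.toMonoidHom.comp d)
    have hj : ∀ σ, Φ (j σ) = dbl m σ := by
      intro σ
      have h1 : ((e (e.symm (d σ)) : ΦA.range) : Perm (Fin (2 * m))) = dbl m σ := by
        rw [MulEquiv.apply_symm_apply]
        rfl
      exact h1
    have hjA : ∀ σ, j σ ∈ A := fun σ => (e.symm (d σ)).2
    have hjinj : Function.Injective j := by
      intro a b hab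
      apply dbl_injective m
      rw [← hj, ← hj, hab]
    have hinj' : Function.Injective (j.comp e0) := hjinj.comp (he0.inj hm)
    let S : Subgroup (L ≃ₐ[k] L) := (j.comp e0).range
    let K : IntermediateField k L := IntermediateField.fixedField S
    have hS : fixer k K L = S := fixer_fixedField S
    let κ : (L ≃ₐ[K] L) ≃* G := (eF k K L).trans ((MulEquiv.subgroupCongr hS).trans
      (MonoidHom.ofInjective hinj').symm)
    have hji : ∀ g, j (e0 (κ g)) = inc k K L g := by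
      intro g
      have h1 : ((MonoidHom.ofInjective hinj' ((MonoidHom.ofInjective hinj').symm
          ((MulEquiv.subgroupCongr hS) (eF k K L g))) : (j.comp e0).range) : L ≃ₐ[k] L) =
          inc k K L g := by
        rw [MulEquiv.apply_symm_apply]
        rfl
      exact h1
    refine ⟨K, ⟨?_, ?_⟩, ⟨κ⟩⟩
    · intro ζ hζ
      rw [IntermediateField.mem_fixedField_iff]
      rintro _ ⟨g, rfl⟩
      exact hjA (e0 g) ζ hζ
    · intro x hx
      obtain ⟨i, rfl⟩ := (hroot x).1 hx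
      set F := IntermediateField.adjoin K {((r i : 𝓞 L) : L)} with hF
      have h1 : F.fixingSubgroup = ⊥ := by
        rw [eq_bot_iff]
        intro g hg
        rw [IntermediateField.mem_fixingSubgroup_iff] at hg
        have h2 : g (r i : L) = r i := hg _ (IntermediateField.mem_adjoin_simple_self K _)
        have h3 : Φ (inc k K L g) i = i := by
          apply hrinj
          apply RingOfIntegers.ext
          rw [← hgr]
          exact h2
        rw [← hji, hj] at h3
        obtain ⟨y, hy⟩ := dbl_fix h3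
        rw [Subgroup.mem_bot]
        by_contra hne
        exact he0 (κ g) (fun h => hne (κ.injective (by rw [h, map_one]))) y hy
      have h2 := IsGalois.fixedField_fixingSubgroup F
      rw [h1, IntermediateField.fixedField_bot] at h2
      exact h2.symm

end Pool.Agent.H511.Sx
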