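import Pool.Agent.H511.Sx.Hom

/-!
# Complete splitting
-/

set_option autoImplicit false
set_option linter.unusedSectionVars false

namespace Pool.Agent.H511.Sx

open NumberField Polynomial Module IsDedekindDomain Pool.Agent.H511.Ex

/-- a root of `X ^ M - X - 1` in a finite field has degree at most `M` over the prime field -/
theorem pow_root {F : Type} [Field F] [Finite F] (q : ℕ) [Fact q.Prime] [CharP F q] {M : ℕ}
    (hM : 2 ≤ M) {y : F} (hy : y ^ M = y + 1) : y ^ (q ^ M.factorial) = y := by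
  classical
  let _ := ZMod.algebra F q
  have hfd : Module.Finite (ZMod q) F := Module.Finite.of_finite
  let E := IntermediateField.adjoin (ZMod q) {y}
  have hint : IsIntegral (ZMod q) y := Algebra.IsIntegral.isIntegral y
  have hd : finrank (ZMod q) E = (minpoly (ZMod q) y).natDegree := IntermediateField.adjoin.finrank hint
  have hmon : (X ^ M - X - 1 : (ZMod q)[X]).Monic := by
    have : (X ^ M - X - 1 : (ZMod q)[X]) = X ^ M - (X + 1) := by ring
    rw [this]
    apply monic_X_pow_sub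
    compute_degree!
  have hdeg : (X ^ M - X - 1 : (ZMod q)[X]).natDegree ≤ M := by
    compute_degree
    omega
  have hd1 : finrank (ZMod q) E ≤ M := by
    rw [hd]
    refine (natDegree_le_of_dvd (minpoly.dvd _ _ ?_) hmon.ne_zero).trans hdeg
    simp only [map_sub, map_pow, aeval_X, map_one]
    rw [hy]
    ring
  obtain ⟨c, hc⟩ : finrank (ZMod q) E ∣ M.factorial := Nat.dvd_factorial finrank_pos hd1
  have hE : Fintype E := Fintype.ofFinite _
  have hcard : Fintype.card E = q ^ finrank (ZMod q) E := by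
    rw [Module.card_eq_pow_finrank (K := ZMod q), ZMod.card]
  have h1 := FiniteField.pow_card_pow c
    (⟨y, IntermediateField.mem_adjoin_simple_self (ZMod q) y⟩ : E)
  rw [hcard, ← pow_mul, ← hc] at h1
  exact congrArg Subtype.val h1

section
variable {L : Type} [Field L] [NumberField L]

theorem splits_int' {p : ℤ[X]} (hp : p.Monic) (hs : (p.map (algebraMap ℤ L)).Splits) :
    (p.map (algebraMap ℤ (𝓞 L))).Splits := by
  have hmap : (p.map (algebraMap ℤ (𝓞 L))).map (algebraMap (𝓞 L) L)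
      = p.map (algebraMap ℤ L) := by
    rw [Polynomial.map_map, ← IsScalarTower.algebraMap_eq]
  refine Splits.of_splits_map_of_injective (i := algebraMap (𝓞 L) L)
    (FaithfulSMul.algebraMap_injective _ _) (by rw [hmap]; exact hs) ?_
  intro a ha
  rw [hmap] at ha
  have hroot : aeval a p = 0 := by
    have := isRoot_of_mem_roots ha
    rwa [IsRoot.def, eval_map_algebraMap] at this
  have hint : IsIntegral ℤ a := ⟨p, hp, hroot⟩
  exact ⟨⟨a, hint⟩, rfl⟩

/-- roots of unity of the residue field come from roots of unity -/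
theorem lift_root {n N : ℕ} (hn : 0 < n) (hN : N ∣ n) (hs : (X ^ n - 1 : L[X]).Splits)
    (P : Ideal (𝓞 L)) [P.IsPrime] {y : 𝓞 L ⧸ P} (hy : y ^ N = 1) :
    ∃ z : 𝓞 L, z ^ N = 1 ∧ Ideal.Quotient.mk P z = y := by
  classical
  have hN0 : 0 < N := Nat.pos_of_dvd_of_pos hN hn
  have hmonz : (X ^ N - 1 : ℤ[X]).Monic := by
    have := monic_X_pow_sub_C (1 : ℤ) hN0.ne'
    rwa [C_1] at this
  have hne : (X ^ n - 1 : L[X]) ≠ 0 := by
    have h1 : (X ^ n - C (1 : L)) ≠ 0 := X_pow_sub_C_ne_zero hn 1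
    rwa [C_1] at h1
  have hdvd : (X ^ N - 1 : L[X]) ∣ (X ^ n - 1 : L[X]) := by
    obtain ⟨c, rfl⟩ := hN
    rw [pow_mul]
    simpa using sub_dvd_pow_sub_pow (X ^ N : L[X]) 1 c
  have hsN : ((X ^ N - 1 : ℤ[X]).map (algebraMap ℤ L)).Splits := by
    have h1 : (X ^ N - 1 : ℤ[X]).map (algebraMap ℤ L) = X ^ N - 1 := by simp
    rw [h1]
    exact hs.of_dvd hne hdvd
  have hs' := splits_int' hmonz hsN
  let π : 𝓞 L →ₐ[ℤ] 𝓞 L ⧸ P := Ideal.Quotient.mkₐ ℤ P
  have him := hs'.image_rootSet_of_map_ne_zero π (hmonz.map _).ne_zero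
  have hy' : y ∈ (X ^ N - 1 : ℤ[X]).rootSet (𝓞 L ⧸ P) := by
    rw [mem_rootSet']
    refine ⟨(hmonz.map _).ne_zero, ?_⟩
    simp [hy]
  rw [← him] at hy'
  obtain ⟨z, hz, hzy⟩ := hy'
  refine ⟨z, ?_, hzy⟩
  rw [mem_rootSet'] at hz
  have h2 := hz.2
  simp only [map_sub, map_pow, aeval_X, map_one] at h2
  exact sub_eq_zero.1 h2

end

section
variable {k L : Type} [Field k] [NumberField k] [Field L] [NumberField L] [Algebra k L]

/-- `g` is a Frobenius element of `L/K` at the prime `w` of `L` -/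
def Frob (K : IntermediateField k L) (w : HeightOneSpectrum (𝓞 L)) (g : L ≃ₐ[K] L) : Prop :=
  ∀ x : 𝓞 L, g • x - x ^ Nat.card (𝓞 K ⧸ w.asIdeal.under (𝓞 K)) ∈ w.asIdeal

theorem exists_frob (K : IntermediateField k L) [IsGalois K L] (w : HeightOneSpectrum (𝓞 L)) :
    ∃ g : L ≃ₐ[K] L, Frob K w g := by
  have hG : IsGaloisGroup (L ≃ₐ[K] L) (𝓞 K) (𝓞 L) := IsGaloisGroup.of_isFractionRing _ _ _ K L
  have h1 := hG.commutes
  have h2 := hG.isInvariant
  have hwp : w.asIdeal.IsPrime := w.isPrime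
  have hfin : Finite (𝓞 L ⧸ w.asIdeal) := Ring.HasFiniteQuotients.finiteQuotient w.ne_bot
  obtain ⟨σ, hσ⟩ := IsArithFrobAt.exists_of_isInvariant (𝓞 K) (L ≃ₐ[K] L) w.asIdeal
  exact ⟨σ, fun x => hσ x⟩

theorem card_pos (K : IntermediateField k L) (w : HeightOneSpectrum (𝓞 L)) :
    0 < Nat.card (𝓞 K ⧸ w.asIdeal.under (𝓞 K)) := by
  have hfin : Finite (𝓞 L ⧸ w.asIdeal) := Ring.HasFiniteQuotients.finiteQuotient w.ne_bot
  have : Finite (𝓞 K ⧸ w.asIdeal.under (𝓞 K)) :=
    Finite.of_injective _ (Ideal.algebraMap_quotient_injective (I := w.asIdeal) (R := 𝓞 K))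
  exact Nat.card_pos

/-- a Frobenius element fixes the roots of `X ^ M - X - 1` modulo the prime -/
theorem frob_root (K : IntermediateField k L) {n M : ℕ} (hn : 0 < n) (hM : 2 ≤ M)
    (hs : (X ^ n - 1 : L[X]).Splits) (hμ : ∀ ζ : L, ζ ^ n = 1 → ζ ∈ K) (q : ℕ) (hq : q.Prime)
    (hqn : (q ^ M.factorial - 1) ∣ n) (w : HeightOneSpectrum (𝓞 L)) (hw : (q : 𝓞 L) ∈ w.asIdeal)
    (r : 𝓞 L) (hr : (r : L) ^ M = r + 1) (g : L ≃ₐ[K] L)
    (hg : Frob K w g) : g • r - r ∈ w.asIdeal := by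
  classical
  have hprime : w.asIdeal.IsPrime := w.isPrime
  have hmax : w.asIdeal.IsMaximal := w.isMaximal
  let _ : Field (𝓞 L ⧸ w.asIdeal) := Ideal.Quotient.field w.asIdeal
  have hfin : Finite (𝓞 L ⧸ w.asIdeal) := Ring.HasFiniteQuotients.finiteQuotient w.ne_bot
  have hqf : Fact q.Prime := ⟨hq⟩
  have hchar : CharP (𝓞 L ⧸ w.asIdeal) q := by
    have h1 : ((q : ℕ) : 𝓞 L ⧸ w.asIdeal) = 0 := by
      have h2 : Ideal.Quotient.mk w.asIdeal (q : 𝓞 L) = 0 := Ideal.Quotient.eq_zero_iff_mem.2 hw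
      rwa [map_natCast] at h2
    exact (CharP.charP_iff_prime_eq_zero hq).2 h1
  set y : 𝓞 L ⧸ w.asIdeal := Ideal.Quotient.mk w.asIdeal r with hy
  have hr' : r ^ M = r + 1 := by
    apply RingOfIntegers.ext
    simpa using hr
  have hyM : y ^ M = y + 1 := by
    rw [hy, ← map_pow, hr', map_add, map_one]
  have hyq := pow_root q hM hyM
  -- `y` is the image of an element fixed by `g`
  obtain ⟨x, hx, hgx⟩ : ∃ x : 𝓞 L, Ideal.Quotient.mk w.asIdeal x = y ∧ g • x = x := by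
    by_cases hy0 : y = 0
    · exact ⟨0, by rw [map_zero, hy0], smul_zero g⟩
    · have h1 : y ^ (q ^ M.factorial - 1) = 1 := by
        have h2 : 0 < q ^ M.factorial := pow_pos hq.pos _
        have h3 : y ^ (q ^ M.factorial - 1) * y = 1 * y := by
          rw [← pow_succ, Nat.sub_add_cancel h2, hyq, one_mul]
        exact mul_right_cancel₀ hy0 h3
      obtain ⟨z, hz, hzy⟩ := lift_root hn hqn hs w.asIdeal h1
      refine ⟨z, hzy, ?_⟩
      have h2 : ((z : 𝓞 L) : L) ^ n = 1 := by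
        obtain ⟨c, hc⟩ := hqn
        rw [hc, pow_mul]
        have h3 : ((z ^ (q ^ M.factorial - 1) : 𝓞 L) : L) = 1 := by rw [hz]; rfl
        have h4 : ((z : 𝓞 L) : L) ^ (q ^ M.factorial - 1) = 1 := by simpa using h3
        rw [h4, one_pow]
      have h3 := hμ _ h2
      apply RingOfIntegers.ext
      exact g.commutes (⟨(z : L), h3⟩ : K)
  have h1 : r - x ∈ w.asIdeal := by
    rw [← Ideal.Quotient.eq, hx]
  have h2 : g • (r - x) ∈ w.asIdeal := by
    have h4 := hg (r - x)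
    have h5 := Ideal.pow_mem_of_mem w.asIdeal h1 _ (card_pos K w)
    have h6 := add_mem h4 h5
    rwa [sub_add_cancel] at h6
  have h3 : g • r - r = g • (r - x) - (r - x) := by
    rw [smul_sub, hgx]
    ring
  rw [h3]
  exact sub_mem h2 h1

/-- if the identity is a Frobenius element, the residue degree is one -/
theorem norm_of_frob_one (K : IntermediateField k L) (w : HeightOneSpectrum (𝓞 L))
    (hg : Frob K w 1) :
    Ideal.absNorm w.asIdeal = Ideal.absNorm (w.under (𝓞 K)).asIdeal := by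
  classical
  have hmax : w.asIdeal.IsMaximal := w.isMaximal
  let _ : Field (𝓞 L ⧸ w.asIdeal) := Ideal.Quotient.field w.asIdeal
  have hfin : Finite (𝓞 L ⧸ w.asIdeal) := Ring.HasFiniteQuotients.finiteQuotient w.ne_bot
  have hft : Fintype (𝓞 L ⧸ w.asIdeal) := Fintype.ofFinite _
  have hc := card_pos K w
  set c := Nat.card (𝓞 K ⧸ w.asIdeal.under (𝓞 K)) with hcdef
  have h1 : ∀ y : 𝓞 L ⧸ w.asIdeal, y ^ c = y := by
    intro y
    obtain ⟨x, rfl⟩ := Ideal.Quotient.mk_surjective y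
    have h2 := hg x
    rw [one_smul, ← Ideal.Quotient.eq, map_pow] at h2
    exact h2.symm
  have hfin2 : Finite (𝓞 K ⧸ w.asIdeal.under (𝓞 K)) :=
    Finite.of_injective _ (Ideal.algebraMap_quotient_injective (I := w.asIdeal) (R := 𝓞 K))
  have h2 : c ≤ Nat.card (𝓞 L ⧸ w.asIdeal) :=
    Nat.card_le_card_of_injective _ (Ideal.algebraMap_quotient_injective (I := w.asIdeal) (R := 𝓞 K))
  have hc1 : 1 < c := by
    have hnt : Nontrivial (𝓞 K ⧸ w.asIdeal.under (𝓞 K)) :=
      Ideal.Quotient.nontrivial_iff.2 (w.under (𝓞 K)).isPrime.ne_top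
    exact Finite.one_lt_card
  have h3 : Nat.card (𝓞 L ⧸ w.asIdeal) ≤ c := by
    rw [Nat.card_eq_fintype_card]
    have hne : (X ^ c - X : (𝓞 L ⧸ w.asIdeal)[X]) ≠ 0 := FiniteField.X_pow_card_sub_X_ne_zero _ hc1
    have h4 : (Finset.univ : Finset (𝓞 L ⧸ w.asIdeal)) ⊆
        (X ^ c - X : (𝓞 L ⧸ w.asIdeal)[X]).roots.toFinset := by
      intro y _
      rw [Multiset.mem_toFinset, mem_roots hne]
      simp [h1 y]
    calc Fintype.card (𝓞 L ⧸ w.asIdeal) = (Finset.univ : Finset (𝓞 L ⧸ w.asIdeal)).card :=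
          (Finset.card_univ).symm
      _ ≤ (X ^ c - X : (𝓞 L ⧸ w.asIdeal)[X]).roots.toFinset.card := Finset.card_le_card h4
      _ ≤ (X ^ c - X : (𝓞 L ⧸ w.asIdeal)[X]).natDegree :=
          (Multiset.toFinset_card_le _).trans (card_roots' _)
      _ = c := FiniteField.X_pow_card_sub_X_natDegree_eq _ hc1
  rw [Ideal.absNorm_apply, Ideal.absNorm_apply, Submodule.cardQuot_apply,
    Submodule.cardQuot_apply]
  exact le_antisymm h3 h2

end

end Pool.Agent.H511.Sx
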